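import Pool.Agent.H353R3.S8

/-!
# Killing all zeros but one: preparations
-/

open Complex MeasureTheory ProbabilityTheory Filter Topology Set Metric
open scoped ContDiff

set_option linter.unusedSectionVars false
set_option autoImplicit false

namespace H313.LW

open H353

noncomputable section

section avg

variable {ι : Type*} [Countable ι] (b h : ι → ℝ) (h0 : ∀ i, 0 ≤ h i) (hs : Summable h)
variable {ε : ℝ} {f : ℝ → ℝ}

include h0 hs in
theorem deriv_Av (hf : ST ε f) : deriv (Av b h f) = Av b h (deriv f) := by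
  obtain ⟨C, _, hC⟩ := hf.bdd
  obtain ⟨C', hC'⟩ := TF_bdd hf.tf
  funext t
  exact (Av_deriv b h h0 hs f hf.smooth C C' hC hC' t).deriv

include h0 hs in
theorem DD_Av (hf : ST ε f) (s : ℂ) : DD (deriv (Av b h f)) s = DD (deriv f) s * KK b h s := by
  rw [deriv_Av b h h0 hs hf]
  obtain ⟨C', hC'⟩ := TF_bdd hf.tf
  have hc' : Continuous (deriv f) := (contDiff_infty_iff_deriv.1 hf.smooth).2.continuous
  have hXm := XX_meas h h0 hs
  set H := ∑' i, h i with hH
  have hC0 : 0 ≤ C' := (abs_nonneg _).trans (hC' 0)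
  have e1 : DD (Av b h (deriv f)) s =
      ∫ t : ℝ, ∫ w, ((deriv f (t - XX h w) : ℝ) : ℂ) * cexp (-s * t) ∂(PP b h) := by
    unfold DD Av
    refine integral_congr_ae (ae_of_all _ fun t => ?_)
    simp only
    rw [← integral_complex_ofReal, ← integral_mul_const]
  rw [e1, integral_integral_swap]
  · have e2 : ∀ w, ∫ t : ℝ, ((deriv f (t - XX h w) : ℝ) : ℂ) * cexp (-s * t) =
        DD (deriv f) s * cexp (-s * XX h w) := by
      intro w
      have e3 : ∀ t : ℝ, ((deriv f (t - XX h w) : ℝ) : ℂ) * cexp (-s * t) =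
          (fun v : ℝ => ((deriv f v : ℝ) : ℂ) * cexp (-s * ((v + XX h w : ℝ) : ℂ))) (t - XX h w) := by
        intro t
        simp only
        congr 3
        push_cast
        ring
      simp_rw [e3]
      rw [integral_sub_right_eq_self (fun v : ℝ => ((deriv f v : ℝ) : ℂ) * cexp (-s * ((v + XX h w : ℝ) : ℂ)))]
      unfold DD
      rw [← integral_mul_const]
      refine integral_congr_ae (ae_of_all _ fun t => ?_)
      simp only
      rw [mul_assoc, ← Complex.exp_add]
      congr 2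
      push_cast
      ring
    simp_rw [e2]
    rw [integral_const_mul]
    rfl
  · have hdom : Integrable (fun p : ℝ × (ι → Bool) =>
        indicator (Icc 0 (ε + H)) (fun t : ℝ => C' * Real.exp (‖s‖ * |t|)) p.1) (volume.prod (PP b h)) := by
      have : Integrable (indicator (Icc 0 (ε + H)) (fun t : ℝ => C' * Real.exp (‖s‖ * |t|))) := by
        refine IntegrableOn.integrable_indicator ?_ measurableSet_Icc
        exact (by fun_prop : Continuous fun t : ℝ => C' * Real.exp (‖s‖ * |t|)).continuousOn.integrableOn_compact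
          isCompact_Icc
      exact this.comp_fst (PP b h)
    refine hdom.mono' ?_ (ae_of_all _ fun p => ?_)
    · refine Measurable.aestronglyMeasurable ?_
      have m3 : Measurable (fun p : ℝ × (ι → Bool) => XX h p.2) := hXm.comp measurable_snd
      have m4 : Measurable (fun p : ℝ × (ι → Bool) => deriv f (p.1 - XX h p.2)) :=
        hc'.measurable.comp (measurable_fst.sub m3)
      show Measurable (fun p : ℝ × (ι → Bool) => ((deriv f (p.1 - XX h p.2) : ℝ) : ℂ) * cexp (-s * (p.1 : ℂ)))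
      fun_prop
    · show ‖((deriv f (p.1 - XX h p.2) : ℝ) : ℂ) * cexp (-s * (p.1 : ℂ))‖ ≤ _
      by_cases hp : p.1 ∈ Icc 0 (ε + H)
      · rw [indicator_of_mem hp, norm_mul, Complex.norm_real, Real.norm_eq_abs]
        refine mul_le_mul (hC' _) ?_ (norm_nonneg _) hC0
        rw [Complex.norm_exp]
        refine Real.exp_le_exp.2 ?_
        refine (Complex.re_le_norm _).trans ?_
        rw [norm_mul, norm_neg, Complex.norm_real, Real.norm_eq_abs]
      · rw [indicator_of_notMem hp]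
        have : deriv f (p.1 - XX h p.2) = 0 := by
          refine hf.tf.supp _ fun hmem => hp ⟨?_, ?_⟩
          · linarith [hmem.1, XX_nonneg h h0 p.2]
          · linarith [hmem.2, XX_le h h0 hs p.2]
        rw [this]
        simp

end avg

/-- steps with a transform divisible by a killing function -/
theorem core_gen {σ θ ε L : ℝ} (h1 : 1 / 2 < σ) (h2 : σ < θ) (h3 : θ < 1) (hε : 0 < ε)
    {g : ℝ → ℝ} (hg : ST L g) {K : ℂ → ℂ} (hK : Kill σ K)
    (hGK : ∀ s : ℂ, DD (deriv g) s = DD (deriv (Ph ε)) s * K s) :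
    ∃ C : ℝ, 0 < C ∧ ∀ t : ℝ, |SG aM g t| ≤ C * Real.exp (θ * t) := by
  have e1 : ∀ t, Av (fun _ : Fin 0 => (0:ℝ)) (fun _ : Fin 0 => (0:ℝ)) g t = g t := by
    intro t
    unfold Av XX
    simp
  have hGK' : ∀ s : ℂ, 0 < s.re → GF g s * KK (fun _ : Fin 0 => (0:ℝ)) (fun _ : Fin 0 => (0:ℝ)) s =
      GG ε s * K s := by
    intro s _
    have : KK (fun _ : Fin 0 => (0:ℝ)) (fun _ : Fin 0 => (0:ℝ)) s = 1 := by
      unfold KK XX
      simp
    rw [this]
    unfold GF GG
    rw [hGK s]
    ring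
  have hs : Summable (fun _ : Fin 0 => (0:ℝ)) := Summable.of_finite
  have hm := core_mu (fun _ : Fin 0 => (0:ℝ)) (fun _ : Fin 0 => (0:ℝ)) (fun i => i.elim0) hs h1 h2 h3 hε hg hK hGK'
  simp_rw [e1] at hm
  exact hm

/-- smooth functions vanishing on the negative half line -/
structure VZ (g : ℝ → ℝ) : Prop where
  smooth : ContDiff ℝ ∞ g
  zero : ∀ t ≤ 0, g t = 0

theorem VZ.deriv {g : ℝ → ℝ} (h : VZ g) : VZ (deriv g) := by
  have hs := (contDiff_infty_iff_deriv.1 h.smooth).2
  refine ⟨hs, ?_⟩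
  intro t ht
  have hc : IsClosed {t : ℝ | _root_.deriv g t = 0} := isClosed_eq hs.continuous continuous_const
  have h0 : Iio (0:ℝ) ⊆ {t : ℝ | _root_.deriv g t = 0} := by
    intro x hx
    have h2 : g =ᶠ[𝓝 x] fun _ => 0 := by
      filter_upwards [Iio_mem_nhds hx] with y hy using h.zero y (le_of_lt hy)
    show _root_.deriv g x = 0
    rw [h2.deriv_eq]; simp
  have : closure (Iio (0:ℝ)) ⊆ {t : ℝ | _root_.deriv g t = 0} := hc.closure_subset_iff.2 h0
  rw [closure_Iio] at this
  exact this ht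

theorem vz_of_ST {L : ℝ} {g : ℝ → ℝ} (h : ST L g) : VZ g := ⟨h.smooth, h.zero⟩

theorem SGv_eq_sum {g : ℝ → ℝ} {a : ℕ → ℝ} (hg : VZ g) (N : ℕ) (t : ℝ) (h : ∀ n : ℕ, N < n → t ≤ Real.log n) :
    SG a g t = ∑ n ∈ Finset.range (N + 1), a n * g (t - Real.log n) := by
  unfold SG
  refine tsum_eq_sum fun n hn => ?_
  rw [Finset.mem_range, not_lt] at hn
  rw [hg.zero _ (by linarith [h n (by omega)]), mul_zero]

theorem log_ge_of (t0 t : ℝ) (ht : t < t0 + 1) (n : ℕ) (hn : ⌈Real.exp (t0 + 1)⌉₊ < n) : t ≤ Real.log n := by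
  have h2 : Real.exp (t0 + 1) ≤ n := (Nat.le_ceil _).trans (by exact_mod_cast hn.le)
  have h3 : t0 + 1 ≤ Real.log n := by
    rw [Real.le_log_iff_exp_le (lt_of_lt_of_le (Real.exp_pos _) h2)]
    exact h2
  linarith

theorem SG_hasDeriv {g : ℝ → ℝ} {a : ℕ → ℝ} (hg : VZ g) (t0 : ℝ) :
    HasDerivAt (SG a g) (SG a (deriv g) t0) t0 := by
  set N := ⌈Real.exp (t0 + 1)⌉₊ with hN
  have h1 : ∀ t ∈ Iio (t0 + 1), SG a g t = ∑ n ∈ Finset.range (N + 1), a n * g (t - Real.log n) :=
    fun t ht => SGv_eq_sum hg N t fun n hn => log_ge_of t0 t ht n hn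
  rw [SGv_eq_sum hg.deriv N t0 fun n hn => log_ge_of t0 t0 (by linarith) n hn]
  have h2 : HasDerivAt (fun t => ∑ n ∈ Finset.range (N + 1), a n * g (t - Real.log n))
      (∑ n ∈ Finset.range (N + 1), a n * deriv g (t0 - Real.log n)) t0 := by
    refine HasDerivAt.fun_sum fun n _ => ?_
    have h3 : HasDerivAt g (deriv g (t0 - Real.log n)) (t0 - Real.log n) :=
      ((contDiff_infty_iff_deriv.1 hg.smooth).1 _).hasDerivAt
    exact (h3.comp_sub_const t0 (Real.log n)).const_mul _
  refine h2.congr_of_eventuallyEq ?_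
  filter_upwards [Iio_mem_nhds (show t0 < t0 + 1 by linarith)] with t ht using h1 t ht

theorem SG_kp {g : ℝ → ℝ} {a : ℕ → ℝ} (hg : VZ g) (c d t : ℝ) :
    SG a (kp c d g) t = SG a g t - c * SG a (deriv g) t + d * SG a (deriv (deriv g)) t := by
  set N := ⌈Real.exp (t + 1)⌉₊ with hN
  have hz : ∀ n : ℕ, N < n → t ≤ Real.log n := fun n hn => log_ge_of t t (by linarith) n hn
  rw [SGv_eq_sum hg N t hz, SGv_eq_sum hg.deriv N t hz, SGv_eq_sum hg.deriv.deriv N t hz]
  have e : SG a (kp c d g) t = ∑ n ∈ Finset.range (N + 1), a n * kp c d g (t - Real.log n) := by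
    unfold SG
    refine tsum_eq_sum fun n hn => ?_
    rw [Finset.mem_range, not_lt] at hn
    have h5 : t - Real.log n ≤ 0 := by linarith [hz n (by omega)]
    unfold kp
    rw [hg.zero _ h5, hg.deriv.zero _ h5, hg.deriv.deriv.zero _ h5]
    ring
  rw [e, Finset.mul_sum, Finset.mul_sum, ← Finset.sum_sub_distrib, ← Finset.sum_add_distrib]
  refine Finset.sum_congr rfl fun n _ => ?_
  unfold kp
  ring

end

end H313.LW
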