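import Pool.Agent.H313R3.LW.A

/-!
# Partial summation and the descent
-/

open Complex MeasureTheory ProbabilityTheory Filter Topology Set Metric
open scoped ContDiff

set_option linter.unusedSectionVars false
set_option autoImplicit false

namespace H313.LW

open H353
open H353.FB (Mx)

noncomputable section

theorem aM_eq (n : ℕ) : aM n = H353.FB.mu n := rfl

theorem Mx_meas : Measurable Mx := by
  have e : Mx = (fun m : ℕ => ∑ k ∈ Finset.Icc 1 m, H353.FB.mu k) ∘ (fun y : ℝ => ⌊y⌋₊) := rfl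
  rw [e]
  exact (measurable_of_countable _).comp Nat.measurable_floor

theorem abs_Mx_exp (u : ℝ) : |Mx (Real.exp u)| ≤ Real.exp u := H353.FB.abs_Mx_le (Real.exp_pos u).le

theorem Mx_exp_int (a b : ℝ) : IntegrableOn (fun u => |Mx (Real.exp u)|) (Icc a b) := by
  refine Integrable.mono' (g := fun u => Real.exp u)
    (Real.continuous_exp.continuousOn.integrableOn_compact isCompact_Icc) ?_ ?_
  · have := Mx_meas
    exact (by fun_prop : Measurable fun u => |Mx (Real.exp u)|).aestronglyMeasurable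
  · refine ae_of_all _ fun u => ?_
    rw [Real.norm_eq_abs, abs_abs]
    exact abs_Mx_exp u

/-- `φ (t - c)` as an integral -/
theorem shift_int {L : ℝ} {φ : ℝ → ℝ} (hφ : VZ φ) (hφ' : TF L (deriv φ)) (t c : ℝ) :
    ∫ u : ℝ, (Ici c).indicator (fun u => deriv φ (t - u)) u = φ (t - c) := by
  rw [integral_indicator measurableSet_Ici]
  have hi : Integrable (deriv φ) := by
    refine Continuous.integrable_of_hasCompactSupport hφ'.smooth.continuous hφ'.hcs
  have e1 : ∫ u in Ici c, deriv φ (t - u) = ∫ v in Iic (t - c), deriv φ v := by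
    have hmp : MeasurePreserving (fun u : ℝ => t - u) volume volume :=
      Measure.measurePreserving_sub_left volume t
    have hme : MeasurableEmbedding (fun u : ℝ => t - u) := (Homeomorph.subLeft t).measurableEmbedding
    have := hmp.setIntegral_preimage_emb hme (deriv φ) (Iic (t - c))
    rw [← this]
    congr 2
    ext u
    simp
  rw [e1]
  have hd : ∀ x : ℝ, HasDerivAt φ (deriv φ x) x := fun x => ((contDiff_infty_iff_deriv.1 hφ.smooth).1 x).hasDerivAt
  have ht : Tendsto φ atBot (𝓝 0) := by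
    refine tendsto_const_nhds.congr' ?_
    filter_upwards [eventually_le_atBot (0:ℝ)] with x hx using (hφ.zero x hx).symm
  have := integral_Iic_of_hasDerivAt_of_tendsto' (a := t - c) (m := 0) (fun x _ => hd x) hi.integrableOn ht
  rw [this, sub_zero]

/-- the integral representation of the smoothed sum -/
theorem SG_repr {L : ℝ} {φ : ℝ → ℝ} (hφ : VZ φ) (hφ' : TF L (deriv φ)) (t : ℝ) :
    SG aM φ t = ∫ u : ℝ, Mx (Real.exp u) * deriv φ (t - u) := by
  set N := ⌈Real.exp (t + 1)⌉₊ with hN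
  have hz : ∀ n : ℕ, N < n → t ≤ Real.log n := fun n hn => log_ge_of t t (by linarith) n hn
  rw [SGv_eq_sum hφ N t hz]
  have hi : ∀ n : ℕ, Integrable (fun u => aM n * (Ici (Real.log n)).indicator (fun u => deriv φ (t - u)) u) := by
    intro n
    refine Integrable.const_mul ?_ _
    refine Integrable.indicator ?_ measurableSet_Ici
    have hi : Integrable (deriv φ) := by
      refine Continuous.integrable_of_hasCompactSupport hφ'.smooth.continuous hφ'.hcs
    exact hi.comp_sub_left t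
  have e1 : ∀ n ∈ Finset.range (N + 1), aM n * φ (t - Real.log n) =
      ∫ u : ℝ, aM n * (Ici (Real.log n)).indicator (fun u => deriv φ (t - u)) u := by
    intro n _
    rw [integral_const_mul, shift_int hφ hφ']
  rw [Finset.sum_congr rfl e1, ← integral_finsetSum _ fun n _ => hi n]
  refine integral_congr_ae (ae_of_all _ fun u => ?_)
  simp only
  by_cases hu : u ≤ t
  · have e2 : ∀ n ∈ Finset.range (N + 1), aM n * (Ici (Real.log n)).indicator (fun u => deriv φ (t - u)) u =
        if n ∈ Finset.Icc 1 ⌊Real.exp u⌋₊ then aM n * deriv φ (t - u) else 0 := by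
      intro n _
      by_cases hn0 : n = 0
      · rw [hn0, aM_zero]
        simp
      · have hn1 : 1 ≤ n := Nat.one_le_iff_ne_zero.2 hn0
        have hnp : (0:ℝ) < n := by exact_mod_cast hn1
        by_cases hle : Real.log n ≤ u
        · rw [indicator_of_mem (show u ∈ Ici (Real.log n) from hle), if_pos]
          rw [Finset.mem_Icc]
          refine ⟨hn1, Nat.le_floor ?_⟩
          rwa [← Real.log_le_iff_le_exp hnp]
        · rw [indicator_of_notMem (show u ∉ Ici (Real.log n) from hle), if_neg, mul_zero]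
          rw [Finset.mem_Icc]
          rintro ⟨_, h2⟩
          apply hle
          rw [Real.log_le_iff_le_exp hnp]
          exact (Nat.le_floor_iff (Real.exp_pos u).le).1 h2
    rw [Finset.sum_congr rfl e2, ← Finset.sum_filter]
    have e3 : (Finset.range (N + 1)).filter (fun n => n ∈ Finset.Icc 1 ⌊Real.exp u⌋₊) = Finset.Icc 1 ⌊Real.exp u⌋₊ := by
      ext n
      rw [Finset.mem_filter, Finset.mem_range]
      refine ⟨fun h => h.2, fun h => ⟨?_, h⟩⟩
      rw [Finset.mem_Icc] at h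
      have h6 : ⌊Real.exp u⌋₊ ≤ N := by
        have : Real.exp u ≤ Real.exp (t + 1) := Real.exp_le_exp.2 (by linarith)
        exact (Nat.floor_mono this).trans (Nat.floor_le_ceil _)
      omega
    rw [e3, ← Finset.sum_mul]
    rfl
  · have h0 : deriv φ (t - u) = 0 := hφ'.supp _ fun h => hu (by linarith [h.1])
    rw [h0, mul_zero]
    refine Finset.sum_eq_zero fun n _ => ?_
    by_cases hm : u ∈ Ici (Real.log n)
    · rw [indicator_of_mem hm, h0, mul_zero]
    · rw [indicator_of_notMem hm, mul_zero]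

/-- the bound by the local mean value -/
theorem SG_le_local {L B : ℝ} {φ : ℝ → ℝ} (hφ : VZ φ) (hφ' : TF L (deriv φ)) (hB : ∀ t, |deriv φ t| ≤ B)
    (t : ℝ) : |SG aM φ t| ≤ B * ∫ u in Icc (t - L) t, |Mx (Real.exp u)| := by
  rw [SG_repr hφ hφ', ← integral_const_mul, ← integral_indicator measurableSet_Icc]
  refine abs_integral_le_integral_abs.trans ?_
  have hB0 : 0 ≤ B := (abs_nonneg _).trans (hB 0)
  refine integral_mono_of_nonneg (ae_of_all _ fun u => abs_nonneg _) ?_ (ae_of_all _ fun u => ?_)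
  · have hI : IntegrableOn (fun u => B * |Mx (Real.exp u)|) (Icc (t - L) t) :=
      (Mx_exp_int (t - L) t).const_mul B
    exact hI.integrable_indicator measurableSet_Icc
  · show |Mx (Real.exp u) * deriv φ (t - u)| ≤ _
    by_cases hu : u ∈ Icc (t - L) t
    · rw [indicator_of_mem hu, abs_mul, mul_comm]
      exact mul_le_mul_of_nonneg_right (hB _) (abs_nonneg _)
    · rw [indicator_of_notMem hu]
      have h0 : deriv φ (t - u) = 0 := hφ'.supp _ fun h => hu ⟨by linarith [h.2], by linarith [h.1]⟩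
      rw [h0, mul_zero, abs_zero]

/-- the derivative of a step is again of the same kind -/
theorem tf_deriv_of_ST {L : ℝ} {g : ℝ → ℝ} (hg : ST L g) : TF L (deriv (deriv g)) := hg.tf.deriv

/-- descent through one factor of the characteristic polynomial -/
theorem descent (ρ : ℂ) (θ C : ℝ) (G G1 G2 E : ℝ → ℝ) (him : ρ.im ≠ 0) (hθ : θ < ρ.re)
    (hG : ∀ t, HasDerivAt G (G1 t) t) (hG1 : ∀ t, HasDerivAt G1 (G2 t) t) (hG2 : Continuous G2)
    (hE : ∀ t, E t = G t - (2 * ρ.re / ‖ρ‖ ^ 2) * G1 t + (1 / ‖ρ‖ ^ 2) * G2 t)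
    (hEb : ∀ t, |E t| ≤ C * Real.exp (θ * t))
    (hsm : ∀ δ > 0, ∃ᶠ t in atTop, |G t| + |G1 t| ≤ δ * Real.exp (ρ.re * t)) :
    ∃ C' : ℝ, ∀ t, |G t| ≤ C' * Real.exp (θ * t) := by
  have hρ0 : ρ ≠ 0 := by
    rintro rfl
    simp at him
  have hn0 : 0 < ‖ρ‖ := norm_pos_iff.2 hρ0
  have hnC : ((‖ρ‖ : ℝ) : ℂ) ≠ 0 := by exact_mod_cast hn0.ne'
  have e1 : (((‖ρ‖ : ℝ) : ℂ)) ^ 2 = ρ * starRingEnd ℂ ρ := by
    rw [Complex.mul_conj, Complex.normSq_eq_norm_sq]
    push_cast
    rfl
  have e2 : ((2 * ρ.re : ℝ) : ℂ) = ρ + starRingEnd ℂ ρ := by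
    rw [Complex.add_conj]
  have hC0 : 0 ≤ C := by
    have := (abs_nonneg _).trans (hEb 0)
    simpa using this
  set F : ℝ → ℂ := fun t => cexp (-ρ * t) * ((G1 t : ℂ) - starRingEnd ℂ ρ * (G t : ℂ)) with hF
  have hF' : ∀ t : ℝ, HasDerivAt F (((‖ρ‖ : ℝ) : ℂ) ^ 2 * (cexp (-ρ * t) * (E t : ℂ))) t := by
    intro t
    have he : HasDerivAt (fun t : ℝ => cexp (-ρ * t)) (-ρ * cexp (-ρ * t)) t := by
      have h1 : HasDerivAt (fun z : ℂ => cexp (-ρ * z)) (cexp (-ρ * t) * (-ρ * 1)) (t : ℂ) :=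
        ((hasDerivAt_id (t : ℂ)).const_mul (-ρ)).cexp
      have h2 := h1.comp_ofReal
      convert h2 using 1
      ring
    have h1 := (hG t).ofReal_comp
    have h2 := (hG1 t).ofReal_comp
    have h3 := he.fun_mul (h2.fun_sub (h1.const_mul (starRingEnd ℂ ρ)))
    refine h3.congr_deriv ?_
    have h4 : ((E t : ℝ) : ℂ) * ((‖ρ‖ : ℝ) : ℂ) ^ 2 = ((‖ρ‖ : ℝ) : ℂ) ^ 2 * (G t : ℂ) -
        (ρ + starRingEnd ℂ ρ) * (G1 t : ℂ) + (G2 t : ℂ) := by
      rw [hE t, ← e2]
      push_cast
      field_simp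
    have h5 : ((‖ρ‖ : ℝ) : ℂ) ^ 2 * (cexp (-ρ * t) * (E t : ℂ)) =
        cexp (-ρ * t) * (((E t : ℝ) : ℂ) * ((‖ρ‖ : ℝ) : ℂ) ^ 2) := by ring
    rw [h5, h4, e1]
    ring
  have hEc : Continuous E := by
    have c1 : Continuous G := continuous_iff_continuousAt.2 fun t => (hG t).continuousAt
    have c2 : Continuous G1 := continuous_iff_continuousAt.2 fun t => (hG1 t).continuousAt
    have : E = fun t => G t - (2 * ρ.re / ‖ρ‖ ^ 2) * G1 t + (1 / ‖ρ‖ ^ 2) * G2 t := funext hE
    rw [this]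
    fun_prop
  set D : ℝ := ‖ρ‖ ^ 2 * C / (ρ.re - θ) with hD
  have hβθ : 0 < ρ.re - θ := by linarith
  have hD0 : 0 ≤ D := by positivity
  have hnexp : ∀ t : ℝ, ‖cexp (-ρ * t)‖ = Real.exp (-ρ.re * t) := by
    intro t
    rw [Complex.norm_exp]
    congr 1
    simp
  -- difference bound
  have hdiff : ∀ a b : ℝ, a ≤ b → ‖F b - F a‖ ≤ D * Real.exp ((θ - ρ.re) * a) := by
    intro a b hab
    have hc : Continuous (fun t : ℝ => ((‖ρ‖ : ℝ) : ℂ) ^ 2 * (cexp (-ρ * t) * (E t : ℂ))) := by fun_prop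
    have h1 := intervalIntegral.integral_eq_sub_of_hasDerivAt (a := a) (b := b) (fun t _ => hF' t)
      (hc.intervalIntegrable a b)
    rw [← h1]
    have hd : ∀ t : ℝ, HasDerivAt (fun t : ℝ => -(D * Real.exp ((θ - ρ.re) * t)))
        (‖ρ‖ ^ 2 * C * Real.exp ((θ - ρ.re) * t)) t := by
      intro t
      have h2 : HasDerivAt (fun t : ℝ => Real.exp ((θ - ρ.re) * t)) (Real.exp ((θ - ρ.re) * t) * ((θ - ρ.re) * 1)) t :=
        ((hasDerivAt_id t).const_mul (θ - ρ.re)).exp
      refine (h2.const_mul D).neg.congr_deriv ?_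
      rw [hD]
      field_simp
      ring
    have hc2 : Continuous (fun t : ℝ => ‖ρ‖ ^ 2 * C * Real.exp ((θ - ρ.re) * t)) := by fun_prop
    have h3 := intervalIntegral.integral_eq_sub_of_hasDerivAt (a := a) (b := b) (fun t _ => hd t)
      (hc2.intervalIntegrable a b)
    have h4 : ‖∫ t in a..b, ((‖ρ‖ : ℝ) : ℂ) ^ 2 * (cexp (-ρ * t) * (E t : ℂ))‖ ≤
        ∫ t in a..b, ‖ρ‖ ^ 2 * C * Real.exp ((θ - ρ.re) * t) := by
      refine intervalIntegral.norm_integral_le_of_norm_le hab (ae_of_all _ fun t _ => ?_)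
        (hc2.intervalIntegrable a b)
      rw [norm_mul, norm_pow, norm_mul, hnexp, Complex.norm_real, Complex.norm_real, Real.norm_eq_abs, Real.norm_eq_abs,
        abs_of_pos hn0]
      have h6 := hEb t
      have h7 : Real.exp ((θ - ρ.re) * t) = Real.exp (-ρ.re * t) * Real.exp (θ * t) := by
        rw [← Real.exp_add]; congr 1; ring
      rw [h7]
      have := Real.exp_pos (-ρ.re * t)
      calc ‖ρ‖ ^ 2 * (Real.exp (-ρ.re * t) * |E t|) ≤ ‖ρ‖ ^ 2 * (Real.exp (-ρ.re * t) * (C * Real.exp (θ * t))) := by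
            gcongr
        _ = _ := by ring
    refine h4.trans ?_
    rw [h3]
    have := Real.exp_pos ((θ - ρ.re) * b)
    nlinarith [mul_nonneg hD0 this.le]
  -- the value
  have hFb : ∀ a : ℝ, ‖F a‖ ≤ D * Real.exp ((θ - ρ.re) * a) := by
    intro a
    refine le_of_forall_pos_le_add fun δ hδ => ?_
    have h1 := hsm (δ / (1 + ‖ρ‖)) (by positivity)
    obtain ⟨b, hb1, hb2⟩ := (h1.and_eventually (eventually_ge_atTop a)).exists
    have h2 := hdiff a b hb2
    have h3 : ‖F b‖ ≤ δ := by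
      rw [hF]
      simp only
      rw [norm_mul, hnexp]
      have h4 : ‖((G1 b : ℝ) : ℂ) - starRingEnd ℂ ρ * (G b : ℂ)‖ ≤ (1 + ‖ρ‖) * (|G b| + |G1 b|) := by
        refine (norm_sub_le _ _).trans ?_
        rw [norm_mul, Complex.norm_real, Complex.norm_real, Real.norm_eq_abs, Real.norm_eq_abs, RCLike.norm_conj]
        nlinarith [abs_nonneg (G b), abs_nonneg (G1 b), mul_nonneg hn0.le (abs_nonneg (G1 b))]
      calc Real.exp (-ρ.re * b) * ‖((G1 b : ℝ) : ℂ) - starRingEnd ℂ ρ * (G b : ℂ)‖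
          ≤ Real.exp (-ρ.re * b) * ((1 + ‖ρ‖) * (δ / (1 + ‖ρ‖) * Real.exp (ρ.re * b))) := by
            gcongr
            exact h4.trans (by gcongr)
        _ = δ * (Real.exp (-ρ.re * b) * Real.exp (ρ.re * b)) := by
            field_simp
        _ = δ := by
            rw [← Real.exp_add]
            simp
    calc ‖F a‖ = ‖F b - (F b - F a)‖ := by congr 1; ring
      _ ≤ ‖F b‖ + ‖F b - F a‖ := norm_sub_le _ _
      _ ≤ D * Real.exp ((θ - ρ.re) * a) + δ := by linarith
  refine ⟨D / |ρ.im|, fun t => ?_⟩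
  have him0 : 0 < |ρ.im| := abs_pos.2 him
  have h1 : cexp (ρ * t) * F t = (G1 t : ℂ) - starRingEnd ℂ ρ * (G t : ℂ) := by
    rw [hF]
    simp only
    rw [← mul_assoc, ← Complex.exp_add]
    have : ρ * (t:ℂ) + -ρ * t = 0 := by ring
    rw [this, Complex.exp_zero, one_mul]
  have h2 : (cexp (ρ * t) * F t).im = ρ.im * G t := by
    rw [h1]
    simp
  have h3 : |ρ.im * G t| ≤ ‖cexp (ρ * t) * F t‖ := by
    rw [← h2]
    exact Complex.abs_im_le_norm _
  rw [norm_mul, Complex.norm_exp] at h3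
  have h4 : (ρ * (t:ℂ)).re = ρ.re * t := by simp
  rw [h4, abs_mul] at h3
  have h5 : Real.exp (ρ.re * t) * ‖F t‖ ≤ D * Real.exp (θ * t) := by
    calc Real.exp (ρ.re * t) * ‖F t‖ ≤ Real.exp (ρ.re * t) * (D * Real.exp ((θ - ρ.re) * t)) := by
          gcongr
          exact hFb t
      _ = D * (Real.exp (ρ.re * t) * Real.exp ((θ - ρ.re) * t)) := by ring
      _ = D * Real.exp (θ * t) := by
          rw [← Real.exp_add]
          congr 2
          ring
  rw [div_mul_eq_mul_div, le_div_iff₀ him0]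
  linarith

end

end H313.LW
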