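import Pool.Agent.H313R3.LW.B

/-!
# A zero to the right of the critical line is visible in every short window
-/

open Complex MeasureTheory ProbabilityTheory Filter Topology Set Metric
open scoped ContDiff

set_option linter.unusedSectionVars false
set_option autoImplicit false

namespace H313.LW

open H353
open H353.FB (Mx)

noncomputable section

theorem qf_ne (ρ s : ℂ) (h0 : ρ ≠ 0) (h1 : s ≠ ρ) (h2 : s ≠ starRingEnd ℂ ρ) : qf ρ s ≠ 0 := by
  have hn : ((‖ρ‖ : ℝ) : ℂ) ≠ 0 := by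
    have : ‖ρ‖ ≠ 0 := norm_ne_zero_iff.2 h0
    exact_mod_cast this
  have e1 : (((‖ρ‖ : ℝ) : ℂ)) ^ 2 = ρ * starRingEnd ℂ ρ := by
    rw [Complex.mul_conj, Complex.normSq_eq_norm_sq]
    push_cast
    rfl
  have e2 : ((2 * ρ.re : ℝ) : ℂ) = ρ + starRingEnd ℂ ρ := by
    rw [Complex.add_conj]
  have e3 : qf ρ s * ((‖ρ‖ : ℝ) : ℂ) ^ 2 = (s - ρ) * (s - starRingEnd ℂ ρ) := by
    unfold qf
    have h5 : (((2 * ρ.re / ‖ρ‖ ^ 2 : ℝ) : ℂ)) * ((‖ρ‖ : ℝ) : ℂ) ^ 2 = ((2 * ρ.re : ℝ) : ℂ) := by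
      push_cast
      field_simp
    have h6 : (((1 / ‖ρ‖ ^ 2 : ℝ) : ℂ)) * ((‖ρ‖ : ℝ) : ℂ) ^ 2 = 1 := by
      push_cast
      field_simp
    calc (1 - ((2 * ρ.re / ‖ρ‖ ^ 2 : ℝ) : ℂ) * s + ((1 / ‖ρ‖ ^ 2 : ℝ) : ℂ) * s ^ 2) * ((‖ρ‖ : ℝ) : ℂ) ^ 2
        = ((‖ρ‖ : ℝ) : ℂ) ^ 2 - (((2 * ρ.re / ‖ρ‖ ^ 2 : ℝ) : ℂ) * ((‖ρ‖ : ℝ) : ℂ) ^ 2) * s +
          (((1 / ‖ρ‖ ^ 2 : ℝ) : ℂ) * ((‖ρ‖ : ℝ) : ℂ) ^ 2) * s ^ 2 := by ring
      _ = ρ * starRingEnd ℂ ρ - (ρ + starRingEnd ℂ ρ) * s + 1 * s ^ 2 := by rw [h5, h6, e1, e2]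
      _ = _ := by ring
  intro h
  rw [h, zero_mul] at e3
  exact (mul_ne_zero (sub_ne_zero.2 h1) (sub_ne_zero.2 h2)) e3.symm

theorem hT_anti (σ T T' : ℝ) (h : T ≤ T') (i : IX σ) : hT σ T' i ≤ hT σ T i := by
  unfold hT
  split_ifs with h1 h2 h2
  · exact le_rfl
  · exact absurd (lt_of_le_of_lt h h1) h2
  · exact (hx_pos σ i).le
  · exact le_rfl

/-- A zero is visible in every window. -/
theorem not_small (ρ : ℂ) (hρ : FF ρ = 0) (hre : 1 / 2 < ρ.re) (him : 0 < ρ.im) (δ : ℝ) (hδ : 0 < δ)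
    (hsm : ∀ κ > 0, ∃ᶠ t in atTop, ∫ u in Icc (t - δ) t, |Mx (Real.exp u)| ≤ κ * Real.exp (ρ.re * t)) :
    False := by
  classical
  have hβ1 : ρ.re < 1 := ZU.J_g2b.FF_zero_re hρ
  set θ : ℝ := (1 / 2 + ρ.re) / 2 with hθ
  set σ : ℝ := (1 / 2 + θ) / 2 with hσ
  have h1 : 1 / 2 < σ := by rw [hσ, hθ]; linarith
  have h2 : σ < θ := by rw [hσ, hθ]; linarith
  have h3 : θ < ρ.re := by rw [hθ]; linarith
  have h4 : σ < 1 := by linarith
  have := ZS_countable σ h1 h4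
  set L : ℝ := min δ (Real.pi / ρ.im) with hL
  have hL0 : 0 < L := lt_min hδ (div_pos Real.pi_pos him)
  obtain ⟨T0, hT0⟩ := hT_small σ h1 h4 (L / 2) (by linarith)
  set T : ℝ := max T0 ρ.im with hT'
  have hTs : ∑' i, hT σ T i < L / 2 :=
    lt_of_le_of_lt ((hT_summable σ T h1 h4).tsum_le_tsum (fun i => hT_anti σ T0 T (le_max_left _ _) i)
      (hT_summable σ T0 h1 h4)) hT0
  have hPh := Ph_ST (L / 2) (by linarith)
  set Bs := Av (bx σ) (hT σ T) (Ph (L / 2)) with hBs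
  have hB : ST L Bs := (Av_ST _ _ (hT_nonneg _ T) (hT_summable _ T h1 h4) hPh).mono (by linarith)
  have hBm : Monotone Bs := Av_mono _ _ (hT_nonneg _ T) (hT_summable _ T h1 h4) hPh (Ph_mono _ (by linarith))
  have hBne : DD (deriv Bs) ρ ≠ 0 := by
    intro hz
    have h5 := mono_long hL0 hB hBm ρ hz
    rw [abs_of_pos him] at h5
    have h6 : L ≤ Real.pi / ρ.im := min_le_right _ _
    rw [le_div_iff₀ him] at h6
    linarith
  obtain ⟨g0, hg0, hg0s⟩ := PF_step ((LZ σ T).erase ρ) hB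
  set c : ℝ := 2 * ρ.re / ‖ρ‖ ^ 2 with hc
  set d : ℝ := 1 / ‖ρ‖ ^ 2 with hd
  set gs : ℕ → ℝ → ℝ := fun j => (kp c d)^[j] g0 with hgs
  have hgs1 : ∀ j, gs (j + 1) = kp c d (gs j) := by
    intro j
    rw [hgs]
    simp only
    rw [Function.iterate_succ_apply']
  have hST : ∀ j, ST L (gs j) := by
    intro j
    induction j with
    | zero => exact hg0
    | succ j ih => rw [hgs1]; exact kp_ST ih _ _
  have hDD : ∀ j s, DD (deriv (gs j)) s = qf ρ s ^ j * DD (deriv g0) s := by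
    intro j s
    induction j with
    | zero => simp [hgs]
    | succ j ih =>
      rw [hgs1, kp_DD (hST j), ih, pow_succ]
      unfold qf
      rw [hc, hd]
      ring
  have hmem : ρ ∈ LZ σ T := by
    rw [mem_LZ]
    exact ⟨hρ, ⟨by linarith, hβ1.le⟩, him.le, le_max_right _ _⟩
  have hKm : ∀ s, DD (deriv (gs (mu ρ))) s = DD (deriv (Ph (L / 2))) s * KL σ T s := by
    intro s
    rw [hDD, hg0s, hBs, DD_Av _ _ (hT_nonneg _ T) (hT_summable _ T h1 h4) hPh]
    unfold KL PF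
    rw [← Finset.mul_prod_erase (LZ σ T) _ hmem]
    ring
  have hPm : ∃ C : ℝ, ∀ t : ℝ, |SG aM (gs (mu ρ)) t| ≤ C * Real.exp (θ * t) := by
    obtain ⟨C, _, hC⟩ := core_gen h1 h2 (by linarith) (by linarith : 0 < L / 2) (hST (mu ρ)) (KL_kill σ T h1 h4) hKm
    exact ⟨C, hC⟩
  have hstep : ∀ j, (∃ C : ℝ, ∀ t : ℝ, |SG aM (gs (j + 1)) t| ≤ C * Real.exp (θ * t)) →
      ∃ C : ℝ, ∀ t : ℝ, |SG aM (gs j) t| ≤ C * Real.exp (θ * t) := by
    intro j hj
    obtain ⟨C, hC⟩ := hj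
    have hv := vz_of_ST (hST j)
    obtain ⟨B1, hB1⟩ := TF_bdd (hST j).tf
    obtain ⟨B2, hB2⟩ := TF_bdd (hST j).tf.deriv
    have hB10 : 0 ≤ B1 := (abs_nonneg _).trans (hB1 0)
    have hB20 : 0 ≤ B2 := (abs_nonneg _).trans (hB2 0)
    refine descent ρ θ C (SG aM (gs j)) (SG aM (deriv (gs j))) (SG aM (deriv (deriv (gs j))))
      (SG aM (gs (j + 1))) him.ne' h3 (fun t => SG_hasDeriv hv t) (fun t => SG_hasDeriv hv.deriv t)
      (continuous_iff_continuousAt.2 fun t => (SG_hasDeriv hv.deriv.deriv t).continuousAt)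
      (fun t => by rw [hgs1, SG_kp hv]) hC ?_
    intro κ hκ
    refine (hsm (κ / (B1 + B2 + 1)) (by positivity)).mono fun t ht => ?_
    have i1 := SG_le_local hv (hST j).tf hB1 t
    have i2 := SG_le_local hv.deriv (hST j).tf.deriv hB2 t
    have i3 : ∫ u in Icc (t - L) t, |Mx (Real.exp u)| ≤ ∫ u in Icc (t - δ) t, |Mx (Real.exp u)| := by
      refine setIntegral_mono_set (Mx_exp_int _ _) (ae_of_all _ fun u => abs_nonneg _) ?_
      refine (Icc_subset_Icc_left ?_).eventuallyLE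
      have : L ≤ δ := min_le_left _ _
      linarith
    have i4 : 0 ≤ ∫ u in Icc (t - L) t, |Mx (Real.exp u)| := integral_nonneg fun _ => abs_nonneg _
    calc |SG aM (gs j) t| + |SG aM (deriv (gs j)) t|
        ≤ (B1 + B2) * ∫ u in Icc (t - L) t, |Mx (Real.exp u)| := by linarith
      _ ≤ (B1 + B2 + 1) * ∫ u in Icc (t - L) t, |Mx (Real.exp u)| := by nlinarith
      _ ≤ (B1 + B2 + 1) * (κ / (B1 + B2 + 1) * Real.exp (ρ.re * t)) := by
          refine mul_le_mul_of_nonneg_left (i3.trans ht) (by positivity)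
      _ = κ * Real.exp (ρ.re * t) := by field_simp
  have hall : ∀ m, (∃ C : ℝ, ∀ t : ℝ, |SG aM (gs m) t| ≤ C * Real.exp (θ * t)) →
      ∃ C : ℝ, ∀ t : ℝ, |SG aM (gs 0) t| ≤ C * Real.exp (θ * t) := by
    intro m
    induction m with
    | zero => exact id
    | succ m ih => exact fun h => ih (hstep m h)
  obtain ⟨C, hC⟩ := hall _ hPm
  have hz := DD_zero_mu (hST 0) θ C (by linarith) (by linarith) hC ρ hρ h3
  have hz' : DD (deriv g0) ρ = 0 := hz
  rw [hg0s] at hz'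
  rcases mul_eq_zero.1 hz' with h | h
  · unfold PF at h
    rw [Finset.prod_eq_zero_iff] at h
    obtain ⟨z, hz1, hz2⟩ := h
    rw [Finset.mem_erase, mem_LZ] at hz1
    have hz3 := (pow_eq_zero_iff (Nat.one_le_iff_ne_zero.1 (mu_pos z hz1.2.1))).1 hz2
    refine qf_ne z ρ ?_ hz1.1.symm ?_ hz3
    · rintro rfl
      have := hz1.2.2.1.1
      simp at this
      linarith
    · intro h
      have h5 := congrArg Complex.im h
      simp only [Complex.conj_im] at h5
      have := hz1.2.2.2.1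
      linarith
  · exact hBne h

/-- change of variables -/
theorem exp_window (a b : ℝ) :
    ∫ u in Icc a b, |Mx (Real.exp u)| ≤ Real.exp (-a) * ∫ y in Icc (Real.exp a) (Real.exp b), |Mx y| := by
  have himg : Real.exp '' Icc a b = Icc (Real.exp a) (Real.exp b) := by
    ext y
    constructor
    · rintro ⟨u, hu, rfl⟩
      exact ⟨Real.exp_le_exp.2 hu.1, Real.exp_le_exp.2 hu.2⟩
    · intro hy
      have hy0 : 0 < y := (Real.exp_pos a).trans_le hy.1
      refine ⟨Real.log y, ⟨?_, ?_⟩, Real.exp_log hy0⟩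
      · rw [Real.le_log_iff_exp_le hy0]; exact hy.1
      · rw [Real.log_le_iff_le_exp hy0]; exact hy.2
  have key := integral_image_eq_integral_abs_deriv_smul (s := Icc a b) measurableSet_Icc
    (f := Real.exp) (f' := Real.exp) (fun x _ => (Real.hasDerivAt_exp x).hasDerivWithinAt)
    Real.exp_injective.injOn (fun y => |Mx y|)
  rw [himg] at key
  rw [key, ← integral_const_mul]
  refine setIntegral_mono_on (Mx_exp_int a b) ?_ measurableSet_Icc fun u hu => ?_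
  · refine Integrable.mono' (g := fun u => Real.exp (-a) * (Real.exp u * Real.exp u)) ?_ ?_ ?_
    · exact (by fun_prop : Continuous fun u : ℝ => Real.exp (-a) * (Real.exp u * Real.exp u)).continuousOn.integrableOn_compact
        isCompact_Icc
    · have := Mx_meas
      exact (by fun_prop : Measurable fun u => Real.exp (-a) * (|Real.exp u| • |Mx (Real.exp u)|)).aestronglyMeasurable
    · refine ae_of_all _ fun u => ?_
      rw [Real.norm_eq_abs, abs_mul, abs_of_pos (Real.exp_pos (-a)), smul_eq_mul, abs_mul, abs_abs,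
        abs_abs, abs_of_pos (Real.exp_pos u)]
      have := abs_Mx_exp u
      have := Real.exp_pos u
      have := Real.exp_pos (-a)
      gcongr
  · rw [smul_eq_mul, abs_of_pos (Real.exp_pos u), ← mul_assoc, ← Real.exp_add]
    have : 1 ≤ Real.exp (-a + u) := Real.one_le_exp (by linarith [hu.1])
    nlinarith [abs_nonneg (Mx (Real.exp u))]

theorem FF_of_zeta (ρ : ℂ) (hz : riemannZeta ρ = 0) : FF ρ = 0 := by
  have hne : ρ ≠ 1 := by
    rintro rfl
    exact riemannZeta_one_ne_zero hz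
  rw [show FF ρ = (ρ - 1) * riemannZeta ρ from ZU.J_g2b.FF_ne hne, hz, mul_zero]

/-- **Lower bound.** -/
theorem window_lower (ρ : ℂ) (hρ : riemannZeta ρ = 0) (hre : 1 / 2 < ρ.re) (η : ℝ) (hη : 0 < η) :
    ∃ c : ℝ, 0 < c ∧ ∀ᶠ x : ℝ in atTop, c * x ^ (1 + ρ.re) ≤ ∫ y in x..(1 + η) * x, |Mx y| := by
  -- it suffices to treat zeros in the upper half plane
  wlog him : 0 < ρ.im with H
  · have h0 := FF_im_ne ρ (FF_of_zeta ρ hρ) (by linarith)
    have h1 : ρ.im < 0 := lt_of_le_of_ne (not_lt.1 him) h0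
    have hne : ρ ≠ 1 := by
      rintro rfl
      exact riemannZeta_one_ne_zero hρ
    have h2 := H (starRingEnd ℂ ρ) (by rw [riemannZeta_conj, hρ]; simp) (by simpa using hre) η hη
      (by simpa using h1)
    simpa using h2
  by_contra hcon
  push Not at hcon
  have hlog : 0 < Real.log (1 + η) := Real.log_pos (by linarith)
  refine not_small ρ (FF_of_zeta ρ hρ) hre him (Real.log (1 + η)) hlog fun κ hκ => ?_
  have h1 := hcon κ hκ
  have ht : Tendsto (fun x : ℝ => Real.log x + Real.log (1 + η)) atTop atTop :=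
    tendsto_atTop_add_const_right _ _ Real.tendsto_log_atTop
  refine ht.frequently ?_
  refine (h1.and_eventually (eventually_ge_atTop (1:ℝ))).mono fun x hx => ?_
  obtain ⟨hx1, hx2⟩ := hx
  have hx0 : 0 < x := by linarith
  have e1 : Real.log x + Real.log (1 + η) - Real.log (1 + η) = Real.log x := by ring
  rw [e1]
  refine (exp_window _ _).trans ?_
  have e2 : Real.exp (Real.log x + Real.log (1 + η)) = (1 + η) * x := by
    rw [Real.exp_add, Real.exp_log hx0, Real.exp_log (by linarith)]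
    ring
  rw [e2, Real.exp_neg, Real.exp_log hx0, integral_Icc_eq_integral_Ioc,
    ← intervalIntegral.integral_of_le (by nlinarith)]
  have h5 : x⁻¹ * ∫ y in x..(1 + η) * x, |Mx y| ≤ x⁻¹ * (κ * x ^ (1 + ρ.re)) :=
    mul_le_mul_of_nonneg_left hx1.le (by positivity)
  refine h5.trans ?_
  rw [Real.rpow_add hx0, Real.rpow_one]
  have e3 : x⁻¹ * (κ * (x * x ^ ρ.re)) = κ * x ^ ρ.re := by field_simp
  rw [e3]
  refine mul_le_mul_of_nonneg_left ?_ hκ.le
  rw [Real.rpow_def_of_pos hx0]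
  refine Real.exp_le_exp.2 ?_
  nlinarith

end

end H313.LW
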