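import Pool.Agent.H313R3.LW.C

/-!
# Local to global principles for the Mertens function
-/

open Complex MeasureTheory ProbabilityTheory Filter Topology Set Metric
open scoped ContDiff

set_option linter.unusedSectionVars false
set_option autoImplicit false

namespace H313.LW

open H353
open H353.FB (Mx)

noncomputable section

theorem not_small' (ρ : ℂ) (hρ : riemannZeta ρ = 0) (hre : 1 / 2 < ρ.re) (δ : ℝ) (hδ : 0 < δ)
    (hsm : ∀ κ > 0, ∃ᶠ t in atTop, ∫ u in Icc (t - δ) t, |Mx (Real.exp u)| ≤ κ * Real.exp (ρ.re * t)) :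
    False := by
  rcases lt_or_gt_of_ne (FF_im_ne ρ (FF_of_zeta ρ hρ) (by linarith)) with h | h
  · refine not_small (starRingEnd ℂ ρ) ?_ (by simpa using hre) (by simpa using h) δ hδ (by simpa using hsm)
    rw [FF_conj, FF_of_zeta ρ hρ]
    simp
  · exact not_small ρ (FF_of_zeta ρ hρ) hre h δ hδ hsm

theorem rpow_ev (c a b K : ℝ) (hc : 0 < c) (hab : a < b) : ∀ᶠ x : ℝ in atTop, K * x ^ a < c * x ^ b := by
  have h1 : Tendsto (fun x : ℝ => x ^ (b - a)) atTop atTop := tendsto_rpow_atTop (by linarith)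
  filter_upwards [h1.eventually_gt_atTop (K / c), eventually_gt_atTop (0:ℝ)] with x hx hx0
  rw [div_lt_iff₀ hc] at hx
  have h2 : x ^ b = x ^ (b - a) * x ^ a := by
    rw [← Real.rpow_add hx0]
    congr 1
    ring
  rw [h2]
  have := Real.rpow_pos_of_pos hx0 a
  nlinarith

/-- **Two-sided local to global principle.** -/
theorem local_global (θ : ℝ) (h0 : 1 / 2 ≤ θ) (h1 : θ < 1) :
    (∀ ε : ℝ, 0 < ε → ∃ C : ℝ, ∀ x : ℝ, 1 ≤ x → |Mx x| ≤ C * x ^ (θ + ε)) ↔
    (∀ ε : ℝ, 0 < ε → ∃ η : ℝ, 0 < η ∧ ∃ᶠ x : ℝ in atTop,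
      ∫ y in x..(1 + η) * x, |Mx y| ≤ x ^ (1 + θ + ε)) := by
  constructor
  · intro h ε hε
    obtain ⟨C, hC⟩ := h (ε / 2) (by linarith)
    have hC0 : 0 ≤ C := by
      have := (abs_nonneg _).trans (hC 1 le_rfl)
      simpa using this
    refine ⟨1, one_pos, Eventually.frequently ?_⟩
    filter_upwards [rpow_ev 1 (1 + θ + ε / 2) (1 + θ + ε) (C * 2 ^ (θ + ε / 2)) one_pos (by linarith),
      eventually_ge_atTop (1:ℝ)] with x hx hx1
    have hx0 : 0 < x := by linarith
    have hb : ∀ y ∈ Set.uIoc x ((1 + 1) * x), ‖|Mx y|‖ ≤ C * (2 * x) ^ (θ + ε / 2) := by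
      intro y hy
      rw [uIoc_of_le (by linarith)] at hy
      rw [Real.norm_eq_abs, abs_abs]
      refine (hC y (by linarith [hy.1])).trans ?_
      refine mul_le_mul_of_nonneg_left ?_ hC0
      refine Real.rpow_le_rpow (by linarith [hy.1]) (by linarith [hy.2]) (by linarith)
    have h2 := intervalIntegral.norm_integral_le_of_norm_le_const hb
    have h3 : |(1 + 1) * x - x| = x := by
      rw [show (1 + 1) * x - x = x by ring, abs_of_pos hx0]
    rw [h3] at h2
    refine (le_abs_self _).trans (h2.trans ?_)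
    rw [one_mul] at hx
    refine le_trans (le_of_eq ?_) hx.le
    rw [Real.mul_rpow (by norm_num) hx0.le, show 1 + θ + ε / 2 = 1 + (θ + ε / 2) by ring,
      Real.rpow_add hx0 1, Real.rpow_one]
    ring
  · intro h ε hε
    refine mertens_of_free θ h0 ?_ (θ + ε) (by linarith)
    intro s hs hz
    obtain ⟨η, hη, hf⟩ := h ((s.re - θ) / 2) (by linarith)
    obtain ⟨c, hc, hlow⟩ := window_lower s hz (by linarith) η hη
    have h3 := (hf.and_eventually (hlow.and (rpow_ev c (1 + θ + (s.re - θ) / 2) (1 + s.re) 1 hc (by linarith)))).exists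
    obtain ⟨x, hx1, hx2, hx3⟩ := h3
    rw [one_mul] at hx3
    linarith

/-- Q1 and a single window size -/
theorem q1_iff_window :
    (∃ ε C : ℝ, ε < 1 / 2 ∧ ∀ x : ℝ, 1 ≤ x → |Mx x| ≤ C * x ^ (1 / 2 + ε)) ↔
    ∃ η θ : ℝ, 0 < η ∧ θ < 1 ∧ ∃ᶠ x : ℝ in atTop, ∫ y in x..(1 + η) * x, |Mx y| ≤ x ^ (1 + θ) := by
  constructor
  · rintro ⟨ε, C, hε, hC⟩
    set θ : ℝ := max (1 / 2 + ε) (1 / 2) with hθ
    have hθ1 : θ < 1 := max_lt (by linarith) (by norm_num)
    have hC0 : 0 ≤ C := by
      have := (abs_nonneg _).trans (hC 1 le_rfl)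
      simpa using this
    obtain ⟨η, hη, hf⟩ := (local_global θ (le_max_right _ _) hθ1).1 (fun δ hδ => ⟨C, fun x hx => by
      refine (hC x hx).trans (mul_le_mul_of_nonneg_left ?_ hC0)
      refine Real.rpow_le_rpow_of_exponent_le hx ?_
      have : 1 / 2 + ε ≤ θ := le_max_left _ _
      linarith⟩) ((1 - θ) / 2) (by linarith)
    refine ⟨η, (1 + θ) / 2, hη, by linarith, hf.mono fun x hx => ?_⟩
    rwa [show 1 + θ + (1 - θ) / 2 = 1 + (1 + θ) / 2 by ring] at hx
  · rintro ⟨η, θ, hη, hθ, hf⟩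
    set θ' : ℝ := max θ (1 / 2) with hθ'
    have hθ1 : θ' < 1 := max_lt hθ (by norm_num)
    have key := (local_global θ' (le_max_right _ _) hθ1).2 (fun ε hε => ⟨η, hη, by
      refine (hf.and_eventually (eventually_ge_atTop (1:ℝ))).mono fun x hx => hx.1.trans ?_
      refine Real.rpow_le_rpow_of_exponent_le hx.2 ?_
      have : θ ≤ θ' := le_max_left _ _
      linarith⟩)
    obtain ⟨C, hC⟩ := key ((1 - θ') / 2) (by linarith)
    refine ⟨θ' + (1 - θ') / 2 - 1 / 2, C, by linarith, fun x hx => ?_⟩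
    have := hC x hx
    rwa [show 1 / 2 + (θ' + (1 - θ') / 2 - 1 / 2) = θ' + (1 - θ') / 2 by ring]

/-! ### One-sided hypotheses -/

theorem step_deriv_pos {L : ℝ} {g : ℝ → ℝ} (hL : 0 < L) (hg : ST L g) :
    ∃ c a b : ℝ, 0 < c ∧ a < b ∧ ∀ v ∈ Icc a b, c ≤ deriv g v := by
  have hd := (contDiff_infty_iff_deriv.1 hg.smooth).1
  have hc := (contDiff_infty_iff_deriv.1 hg.smooth).2.continuous
  obtain ⟨v0, _, hv0⟩ := exists_deriv_eq_slope g hL hg.smooth.continuous.continuousOn hd.differentiableOn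
  rw [hg.zero 0 le_rfl, hg.one L le_rfl] at hv0
  have hpos : 0 < deriv g v0 := by
    rw [hv0]
    exact div_pos (by norm_num) (by linarith)
  have h2 : ∀ᶠ v in 𝓝 v0, deriv g v0 / 2 < deriv g v :=
    hc.continuousAt.eventually (lt_mem_nhds (show deriv g v0 / 2 < deriv g v0 by linarith))
  obtain ⟨r, hr, hball⟩ := Metric.eventually_nhds_iff_ball.1 h2
  refine ⟨deriv g v0 / 2, v0 - r / 2, v0 + r / 2, by linarith, by linarith, fun v hv => ?_⟩
  refine (hball v ?_).le
  rw [mem_ball, Real.dist_eq, abs_lt]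
  constructor <;> linarith [hv.1, hv.2]

theorem Mx_exp_int_pos (s : ℝ) (a b : ℝ) : IntegrableOn (fun u => max (s * Mx (Real.exp u)) 0) (Icc a b) := by
  refine Integrable.mono' (g := fun u => |s| * |Mx (Real.exp u)|) ((Mx_exp_int a b).const_mul |s|) ?_ ?_
  · have := Mx_meas
    exact (by fun_prop : Measurable fun u => max (s * Mx (Real.exp u)) 0).aestronglyMeasurable
  · refine ae_of_all _ fun u => ?_
    rw [Real.norm_eq_abs, abs_of_nonneg (le_max_right _ _), ← abs_mul]
    exact max_le (le_abs_self _) (abs_nonneg _)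

/-- one-sided smallness on a window gives two-sided smallness on a subwindow -/
theorem one_to_two (s : ℝ) (hs : s = 1 ∨ s = -1) {L : ℝ} {g : ℝ → ℝ} (hL : 0 < L) (hg : ST L g) (hm : Monotone g)
    (θ C : ℝ) (hb : ∀ t, |SG aM g t| ≤ C * Real.exp (θ * t)) :
    ∃ D a b : ℝ, 0 < D ∧ a < b ∧ ∀ t : ℝ,
      ∫ u in Icc (t - b) (t - a), |Mx (Real.exp u)| ≤
        D * ((∫ u in Icc (t - L) t, max (s * Mx (Real.exp u)) 0) + Real.exp (θ * t)) := by
  obtain ⟨c, a, b, hc, hab, hcab⟩ := step_deriv_pos hL hg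
  obtain ⟨B, hB⟩ := TF_bdd hg.tf
  have hB0 : 0 ≤ B := (abs_nonneg _).trans (hB 0)
  have hC0 : 0 ≤ C := by
    have := (abs_nonneg _).trans (hb 0)
    simpa using this
  have hpos : ∀ t, 0 ≤ deriv g t := fun t => hm.deriv_nonneg
  refine ⟨(2 * B + C + 1) / c, a, b, by positivity, hab, fun t => ?_⟩
  have hg0 : Continuous (deriv g) := hg.tf.smooth.continuous
  have hMm := Mx_meas
  -- integrability
  have hI : Integrable (fun u => |Mx (Real.exp u)| * deriv g (t - u)) := by
    have h1 : Integrable ((Icc (t - L) t).indicator (fun u => |Mx (Real.exp u)| * B)) := by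
      have : IntegrableOn (fun u => |Mx (Real.exp u)| * B) (Icc (t - L) t) := (Mx_exp_int _ _).mul_const B
      exact this.integrable_indicator measurableSet_Icc
    refine h1.mono' ?_ (ae_of_all _ fun u => ?_)
    · exact (by fun_prop : Measurable fun u => |Mx (Real.exp u)| * deriv g (t - u)).aestronglyMeasurable
    · by_cases hu : u ∈ Icc (t - L) t
      · rw [indicator_of_mem hu, norm_mul, Real.norm_eq_abs, abs_abs, Real.norm_eq_abs]
        exact mul_le_mul_of_nonneg_left (hB _) (abs_nonneg _)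
      · rw [indicator_of_notMem hu]
        have h0 : deriv g (t - u) = 0 := hg.tf.supp _ fun h => hu ⟨by linarith [h.2], by linarith [h.1]⟩
        rw [h0, mul_zero, norm_zero]
  have hI2 : Integrable (fun u => Mx (Real.exp u) * deriv g (t - u)) := by
    refine hI.mono' ?_ (ae_of_all _ fun u => ?_)
    · exact (by fun_prop : Measurable fun u => Mx (Real.exp u) * deriv g (t - u)).aestronglyMeasurable
    · rw [norm_mul, Real.norm_eq_abs, Real.norm_eq_abs, abs_of_nonneg (hpos _)]
  have hI3 : Integrable (fun u => max (s * Mx (Real.exp u)) 0 * deriv g (t - u)) := by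
    refine hI.mono' ?_ (ae_of_all _ fun u => ?_)
    · exact (by fun_prop : Measurable fun u => max (s * Mx (Real.exp u)) 0 * deriv g (t - u)).aestronglyMeasurable
    · rw [norm_mul, Real.norm_eq_abs, Real.norm_eq_abs, abs_of_nonneg (hpos _), abs_of_nonneg (le_max_right _ _)]
      refine mul_le_mul_of_nonneg_right ?_ (hpos _)
      refine max_le ?_ (abs_nonneg _)
      rcases hs with h | h
      · rw [h, one_mul]; exact le_abs_self _
      · rw [h, neg_one_mul]; exact neg_le_abs _
  -- identity |M| = 2 (sM)^+ - s M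
  have hid : ∀ m : ℝ, |m| = 2 * max (s * m) 0 - s * m := by
    intro m
    rcases hs with h | h
    · rw [h, one_mul]
      rcases le_total m 0 with h | h
      · rw [max_eq_right h, abs_of_nonpos h]; ring
      · rw [max_eq_left h, abs_of_nonneg h]; ring
    · rw [h, neg_one_mul]
      rcases le_total m 0 with h | h
      · rw [max_eq_left (by linarith), abs_of_nonpos h]; ring
      · rw [max_eq_right (by linarith), abs_of_nonneg h]; ring
  have e1 : ∫ u, |Mx (Real.exp u)| * deriv g (t - u) =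
      2 * (∫ u, max (s * Mx (Real.exp u)) 0 * deriv g (t - u)) - s * SG aM g t := by
    rw [SG_repr (vz_of_ST hg) hg.tf, ← integral_const_mul, ← integral_const_mul,
      ← integral_sub (hI3.const_mul 2) (hI2.const_mul s)]
    refine integral_congr_ae (ae_of_all _ fun u => ?_)
    simp only
    rw [hid]
    ring
  have e2 : ∫ u, max (s * Mx (Real.exp u)) 0 * deriv g (t - u) ≤
      B * ∫ u in Icc (t - L) t, max (s * Mx (Real.exp u)) 0 := by
    rw [← integral_const_mul, ← integral_indicator measurableSet_Icc]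
    refine integral_mono hI3 ?_ fun u => ?_
    · have : IntegrableOn (fun u => B * max (s * Mx (Real.exp u)) 0) (Icc (t - L) t) := (Mx_exp_int_pos s _ _).const_mul B
      exact this.integrable_indicator measurableSet_Icc
    · by_cases hu : u ∈ Icc (t - L) t
      · rw [indicator_of_mem hu, mul_comm]
        exact mul_le_mul_of_nonneg_right ((le_abs_self _).trans (hB _)) (le_max_right _ _)
      · rw [indicator_of_notMem hu]
        have h0 : deriv g (t - u) = 0 := hg.tf.supp _ fun h => hu ⟨by linarith [h.2], by linarith [h.1]⟩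
        simp [h0]
  have e3 : c * ∫ u in Icc (t - b) (t - a), |Mx (Real.exp u)| ≤ ∫ u, |Mx (Real.exp u)| * deriv g (t - u) := by
    rw [← integral_const_mul, ← integral_indicator measurableSet_Icc]
    refine integral_mono ?_ hI fun u => ?_
    · have : IntegrableOn (fun u => c * |Mx (Real.exp u)|) (Icc (t - b) (t - a)) := (Mx_exp_int _ _).const_mul c
      exact this.integrable_indicator measurableSet_Icc
    · by_cases hu : u ∈ Icc (t - b) (t - a)
      · rw [indicator_of_mem hu, mul_comm]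
        exact mul_le_mul_of_nonneg_left (hcab _ ⟨by linarith [hu.2], by linarith [hu.1]⟩) (abs_nonneg _)
      · rw [indicator_of_notMem hu]
        exact mul_nonneg (abs_nonneg _) (hpos _)
  have e4 : -(s * SG aM g t) ≤ C * Real.exp (θ * t) := by
    have h5 := hb t
    rw [abs_le] at h5
    rcases hs with h | h
    · rw [h]; linarith [h5.1]
    · rw [h]; linarith [h5.2]
  have hP : 0 ≤ ∫ u in Icc (t - L) t, max (s * Mx (Real.exp u)) 0 := integral_nonneg fun _ => le_max_right _ _
  have hE := Real.exp_pos (θ * t)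
  rw [div_mul_eq_mul_div, le_div_iff₀ hc]
  nlinarith [mul_nonneg hC0 hP, mul_nonneg hB0 hE.le]

theorem exp_window_pos (s : ℝ) (a b : ℝ) :
    ∫ u in Icc a b, max (s * Mx (Real.exp u)) 0 ≤
      Real.exp (-a) * ∫ y in Icc (Real.exp a) (Real.exp b), max (s * Mx y) 0 := by
  have himg : Real.exp '' Icc a b = Icc (Real.exp a) (Real.exp b) := by
    ext y
    constructor
    · rintro ⟨u, hu, rfl⟩
      exact ⟨Real.exp_le_exp.2 hu.1, Real.exp_le_exp.2 hu.2⟩
    · intro hy
      have hy0 : 0 < y := (Real.exp_pos a).trans_le hy.1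
      refine ⟨Real.log y, ⟨?_, ?_⟩, Real.exp_log hy0⟩
      · rw [Real.le_log_iff_exp_le hy0]; exact hy.1
      · rw [Real.log_le_iff_le_exp hy0]; exact hy.2
  have key := integral_image_eq_integral_abs_deriv_smul (s := Icc a b) measurableSet_Icc
    (f := Real.exp) (f' := Real.exp) (fun x _ => (Real.hasDerivAt_exp x).hasDerivWithinAt)
    Real.exp_injective.injOn (fun y => max (s * Mx y) 0)
  rw [himg] at key
  rw [key, ← integral_const_mul]
  refine setIntegral_mono_on (Mx_exp_int_pos s a b) ?_ measurableSet_Icc fun u hu => ?_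
  · refine Integrable.mono' (g := fun u => Real.exp (-a) * (Real.exp u * (|s| * Real.exp u))) ?_ ?_ ?_
    · exact (by fun_prop : Continuous fun u : ℝ => Real.exp (-a) * (Real.exp u * (|s| * Real.exp u))).continuousOn.integrableOn_compact
        isCompact_Icc
    · have := Mx_meas
      exact (by fun_prop : Measurable fun u => Real.exp (-a) * (|Real.exp u| • max (s * Mx (Real.exp u)) 0)).aestronglyMeasurable
    · refine ae_of_all _ fun u => ?_
      rw [Real.norm_eq_abs, abs_mul, abs_of_pos (Real.exp_pos (-a)), smul_eq_mul, abs_mul, abs_abs,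
        abs_of_pos (Real.exp_pos u), abs_of_nonneg (le_max_right _ _)]
      have h1 : max (s * Mx (Real.exp u)) 0 ≤ |s| * Real.exp u := by
        refine max_le ?_ (by positivity)
        refine (le_abs_self _).trans ?_
        rw [abs_mul]
        exact mul_le_mul_of_nonneg_left (abs_Mx_exp u) (abs_nonneg _)
      have := Real.exp_pos u
      have := Real.exp_pos (-a)
      gcongr
  · rw [smul_eq_mul, abs_of_pos (Real.exp_pos u), ← mul_assoc, ← Real.exp_add]
    have : 1 ≤ Real.exp (-a + u) := Real.one_le_exp (by linarith [hu.1])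
    have h2 : 0 ≤ max (s * Mx (Real.exp u)) 0 := le_max_right _ _
    nlinarith

/-- **One-sided local to global principle.** -/
theorem one_sided (s : ℝ) (hs : s = 1 ∨ s = -1) (θ : ℝ) (h1 : 1 / 2 < θ) (h2 : θ < 1) (C : ℝ)
    (hf : ∃ᶠ x : ℝ in atTop, ∫ y in x..(AA θ) * x, max (s * Mx y) 0 ≤ C * x ^ (1 + θ))
    (ρ : ℂ) (hre : θ < ρ.re) : riemannZeta ρ ≠ 0 := by
  intro hz
  obtain ⟨g, hg, hm⟩ := good_mono (1 - θ) θ (by linarith) h1 h2
  set L : ℝ := (1 - θ) + HT (sg θ) with hL
  have hL0 : 0 < L := by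
    have := HT_nonneg (sg θ)
    rw [hL]; linarith
  obtain ⟨C1, _, hC1⟩ := hg.mu
  obtain ⟨D, a, b, hD, hab, key⟩ := one_to_two s hs hL0 hg.st hm θ C1 hC1
  refine not_small' ρ hz (by linarith) (b - a) (by linarith) fun κ hκ => ?_
  have ht : Tendsto (fun x : ℝ => Real.log x + L - a) atTop atTop := by
    have : Tendsto (fun x : ℝ => Real.log x + (L - a)) atTop atTop :=
      tendsto_atTop_add_const_right _ _ Real.tendsto_log_atTop
    refine this.congr fun x => by ring
  refine ht.frequently ?_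
  have hA : AA θ = Real.exp L := rfl
  set K : ℝ := D * (|C| + Real.exp (θ * L)) with hK
  set κ' : ℝ := κ * Real.exp (ρ.re * (L - a)) with hκ'
  have hκ'0 : 0 < κ' := by positivity
  refine (hf.and_eventually ((eventually_ge_atTop (1:ℝ)).and (rpow_ev κ' θ ρ.re K hκ'0 hre))).mono fun x hx => ?_
  obtain ⟨hx1, hx2, hx3⟩ := hx
  have hx0 : 0 < x := by linarith
  have hA1 : 1 ≤ AA θ := by rw [hA]; exact Real.one_le_exp hL0.le
  have e1 : Real.log x + L - a - (b - a) = (Real.log x + L) - b := by ring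
  rw [e1]
  refine (key (Real.log x + L)).trans ?_
  have e2 := exp_window_pos s (Real.log x) (Real.log x + L)
  have e3 : Real.exp (Real.log x + L) = AA θ * x := by
    rw [Real.exp_add, Real.exp_log hx0, hA, mul_comm]
  have e2' : ∫ y in Icc x (AA θ * x), max (s * Mx y) 0 = ∫ y in x..(AA θ) * x, max (s * Mx y) 0 := by
    rw [intervalIntegral.integral_of_le (by nlinarith), integral_Icc_eq_integral_Ioc]
  rw [e3, Real.exp_neg, Real.exp_log hx0, e2'] at e2
  have e4 : Real.log x + L - L = Real.log x := by ring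
  rw [e4]
  have e5 : x⁻¹ * ∫ y in x..(AA θ) * x, max (s * Mx y) 0 ≤ |C| * x ^ θ := by
    have h5 : x⁻¹ * ∫ y in x..(AA θ) * x, max (s * Mx y) 0 ≤ x⁻¹ * (C * x ^ (1 + θ)) :=
      mul_le_mul_of_nonneg_left hx1 (by positivity)
    refine h5.trans ?_
    rw [Real.rpow_add hx0, Real.rpow_one]
    have e3 : x⁻¹ * (C * (x * x ^ θ)) = C * x ^ θ := by field_simp
    rw [e3]
    exact mul_le_mul_of_nonneg_right (le_abs_self _) (Real.rpow_nonneg hx0.le _)
  have e6 : Real.exp (θ * (Real.log x + L)) = Real.exp (θ * L) * x ^ θ := by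
    rw [Real.rpow_def_of_pos hx0, ← Real.exp_add]
    congr 1
    ring
  have e7 : Real.exp (ρ.re * (Real.log x + L - a)) = Real.exp (ρ.re * (L - a)) * x ^ ρ.re := by
    rw [Real.rpow_def_of_pos hx0, ← Real.exp_add]
    congr 1
    ring
  rw [e6, e7]
  have e8 : D * ((∫ u in Icc (Real.log x) (Real.log x + L), max (s * Mx (Real.exp u)) 0) + Real.exp (θ * L) * x ^ θ)
      ≤ D * (|C| * x ^ θ + Real.exp (θ * L) * x ^ θ) := by
    refine mul_le_mul_of_nonneg_left ?_ hD.le
    linarith
  refine e8.trans ?_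
  rw [hK, hκ'] at hx3
  nlinarith [hx3]

end

end H313.LW
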