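import Pool.Agent.H313R3.LW.D

/-!
# One-sided principle: final form
-/

open Complex MeasureTheory ProbabilityTheory Filter Topology Set Metric
open scoped ContDiff

set_option linter.unusedSectionVars false
set_option autoImplicit false

namespace H313.LW

open H353
open H353.FB (Mx)

noncomputable section

theorem AA_gt (θ : ℝ) (h2 : θ < 1) : 1 < AA θ := by
  unfold AA
  rw [Real.one_lt_exp_iff]
  have := HT_nonneg (sg θ)
  linarith

theorem one_sided_global (s : ℝ) (hs : s = 1 ∨ s = -1) (θ : ℝ) (h1 : 1 / 2 < θ) (h2 : θ < 1) (C : ℝ)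
    (hf : ∃ᶠ x : ℝ in atTop, ∫ y in x..(AA θ) * x, max (s * Mx y) 0 ≤ C * x ^ (1 + θ))
    (θ' : ℝ) (hθ' : θ < θ') : ∃ C' : ℝ, ∀ x : ℝ, 1 ≤ x → |Mx x| ≤ C' * x ^ θ' :=
  mertens_of_free θ h1.le (fun ρ hρ => one_sided s hs θ h1 h2 C hf ρ hρ) θ' hθ'

theorem one_sided_q1 (s : ℝ) (hs : s = 1 ∨ s = -1) :
    (∃ ε C : ℝ, ε < 1 / 2 ∧ ∀ x : ℝ, 1 ≤ x → |Mx x| ≤ C * x ^ (1 / 2 + ε)) ↔
    ∃ η θ : ℝ, 0 < η ∧ θ < 1 ∧ ∃ᶠ x : ℝ in atTop, ∀ y ∈ Icc x ((1 + η) * x), s * Mx y ≤ x ^ θ := by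
  constructor
  · rintro ⟨ε, C, hε, hC⟩
    have hC0 : 0 ≤ C := by
      have := (abs_nonneg _).trans (hC 1 le_rfl)
      simpa using this
    set θ : ℝ := max (1 / 2 + ε) (1 / 2) with hθ
    have hθ1 : θ < 1 := max_lt (by linarith) (by norm_num)
    have hθ0 : 1 / 2 ≤ θ := le_max_right _ _
    refine ⟨1, (1 + θ) / 2, one_pos, by linarith, Eventually.frequently ?_⟩
    filter_upwards [rpow_ev 1 θ ((1 + θ) / 2) (C * 2 ^ θ) one_pos (by linarith),
      eventually_ge_atTop (1:ℝ)] with x hx hx1 y hy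
    have hx0 : 0 < x := by linarith
    have hy1 : 1 ≤ y := by linarith [hy.1]
    have e1 : s * Mx y ≤ |Mx y| := by
      rcases hs with h | h
      · rw [h, one_mul]; exact le_abs_self _
      · rw [h, neg_one_mul]; exact neg_le_abs _
    have e2 : |Mx y| ≤ C * y ^ θ := by
      refine (hC y hy1).trans (mul_le_mul_of_nonneg_left ?_ hC0)
      exact Real.rpow_le_rpow_of_exponent_le hy1 (le_max_left _ _)
    have e3 : y ^ θ ≤ (2 * x) ^ θ := Real.rpow_le_rpow (by linarith) (by linarith [hy.2]) (by linarith)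
    rw [Real.mul_rpow (by norm_num) hx0.le] at e3
    rw [one_mul] at hx
    calc s * Mx y ≤ C * y ^ θ := e1.trans e2
      _ ≤ C * (2 ^ θ * x ^ θ) := mul_le_mul_of_nonneg_left e3 hC0
      _ = C * 2 ^ θ * x ^ θ := by ring
      _ ≤ _ := hx.le
  · rintro ⟨η, θ, hη, hθ, hf⟩
    have h3 : ∀ᶠ t in 𝓝[<] (1:ℝ), AA t < 1 + η :=
      AA_tendsto.eventually (gt_mem_nhds (show (1:ℝ) < 1 + η by linarith))
    have h4 : ∀ᶠ t in 𝓝[<] (1:ℝ), max θ (1 / 2) < t :=
      eventually_nhdsWithin_of_eventually_nhds (lt_mem_nhds (max_lt hθ (by norm_num)))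
    obtain ⟨t, ⟨ht1, ht2⟩, ht3⟩ := ((h3.and h4).and self_mem_nhdsWithin).exists
    have ht3' : t < 1 := ht3
    have ht4 : 1 / 2 < t := lt_of_le_of_lt (le_max_right _ _) ht2
    have ht5 : θ < t := lt_of_le_of_lt (le_max_left _ _) ht2
    have hA1 := AA_gt t ht3'
    obtain ⟨C', hC'⟩ := one_sided_global s hs t ht4 ht3' (AA t) (by
      refine (hf.and_eventually (eventually_ge_atTop (1:ℝ))).mono fun x hx => ?_
      obtain ⟨hx1, hx2⟩ := hx
      have hx0 : 0 < x := by linarith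
      have hb : ∀ y ∈ Set.uIoc x ((AA t) * x), ‖max (s * Mx y) 0‖ ≤ x ^ t := by
        intro y hy
        rw [uIoc_of_le (by nlinarith)] at hy
        rw [Real.norm_eq_abs, abs_of_nonneg (le_max_right _ _)]
        refine max_le ?_ (by positivity)
        refine (hx1 y ⟨hy.1.le, hy.2.trans (by nlinarith)⟩).trans ?_
        exact Real.rpow_le_rpow_of_exponent_le hx2 ht5.le
      have h2 := intervalIntegral.norm_integral_le_of_norm_le_const hb
      have h5 : |AA t * x - x| ≤ AA t * x := by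
        rw [abs_of_nonneg (by nlinarith)]
        linarith
      refine (le_abs_self _).trans (h2.trans ?_)
      rw [Real.rpow_add hx0 1, Real.rpow_one]
      have h6 : 0 ≤ x ^ t := by positivity
      nlinarith) ((1 + t) / 2) (by linarith)
    refine ⟨t / 2, C', by linarith, fun x hx => ?_⟩
    have := hC' x hx
    rwa [show (1:ℝ) / 2 + t / 2 = (1 + t) / 2 by ring]

end

end H313.LW
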