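import Pool.Agent.H313R3.LW.D

/-!
# General coefficients; oscillation modulo constants
-/

open Complex MeasureTheory ProbabilityTheory Filter Topology Set Metric
open scoped ContDiff

set_option linter.unusedSectionVars false
set_option autoImplicit false

namespace H313.LW

open H353

noncomputable section

/-- summatory function -/
def SS (a : ℕ → ℝ) (y : ℝ) : ℝ := ∑ n ∈ Finset.Icc 1 ⌊y⌋₊, a n

/-- coefficients for which the method works -/
structure Nice (a : ℕ → ℝ) : Prop where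
  zero : a 0 = 0
  core : ∀ {σ θ ε L : ℝ}, 1 / 2 < σ → σ < θ → θ < 1 → 0 < ε → ∀ {g : ℝ → ℝ}, ST L g → ∀ {K : ℂ → ℂ},
    Kill σ K → (∀ s : ℂ, DD (deriv g) s = DD (deriv (Ph ε)) s * K s) →
    ∃ C : ℝ, 0 < C ∧ ∀ t : ℝ, |SG a g t| ≤ C * Real.exp (θ * t)
  dd : ∀ {L : ℝ} {g : ℝ → ℝ}, ST L g → ∀ θ C : ℝ, 0 < θ → θ < 1 →
    (∀ t, |SG a g t| ≤ C * Real.exp (θ * t)) → ∀ ρ : ℂ, FF ρ = 0 → θ < ρ.re → DD (deriv g) ρ = 0

theorem core_genL {σ θ ε L : ℝ} (h1 : 1 / 2 < σ) (h2 : σ < θ) (h3 : θ < 1) (hε : 0 < ε)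
    {g : ℝ → ℝ} (hg : ST L g) {K : ℂ → ℂ} (hK : Kill σ K)
    (hGK : ∀ s : ℂ, DD (deriv g) s = DD (deriv (Ph ε)) s * K s) :
    ∃ C : ℝ, 0 < C ∧ ∀ t : ℝ, |SG aL g t| ≤ C * Real.exp (θ * t) := by
  have e1 : ∀ t, Av (fun _ : Fin 0 => (0:ℝ)) (fun _ : Fin 0 => (0:ℝ)) g t = g t := by
    intro t
    unfold Av XX
    simp
  have hGK' : ∀ s : ℂ, 0 < s.re → GF g s * KK (fun _ : Fin 0 => (0:ℝ)) (fun _ : Fin 0 => (0:ℝ)) s =
      GG ε s * K s := by
    intro s _
    have : KK (fun _ : Fin 0 => (0:ℝ)) (fun _ : Fin 0 => (0:ℝ)) s = 1 := by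
      unfold KK XX
      simp
    rw [this]
    unfold GF GG
    rw [hGK s]
    ring
  have hs : Summable (fun _ : Fin 0 => (0:ℝ)) := Summable.of_finite
  have hm := core_lam (fun _ : Fin 0 => (0:ℝ)) (fun _ : Fin 0 => (0:ℝ)) (fun i => i.elim0) hs h1 h2 h3 hε hg hK hGK'
  simp_rw [e1] at hm
  exact hm

theorem nice_mu : Nice aM :=
  ⟨aM_zero, fun h1 h2 h3 hε _ hg _ hK hGK => core_gen h1 h2 h3 hε hg hK hGK,
    fun hg θ C h0 h3 hb ρ hρ hre => DD_zero_mu hg θ C h0 h3 hb ρ hρ hre⟩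

theorem nice_lam : Nice aL :=
  ⟨by simp [aL], fun h1 h2 h3 hε _ hg _ hK hGK => core_genL h1 h2 h3 hε hg hK hGK,
    fun hg θ C h0 h3 hb ρ hρ hre => DD_zero_lam hg θ C h0 h3 hb ρ hρ hre⟩

variable {a : ℕ → ℝ}

theorem SS_meas (a : ℕ → ℝ) : Measurable (SS a) := by
  have e : SS a = (fun m : ℕ => ∑ k ∈ Finset.Icc 1 m, a k) ∘ (fun y : ℝ => ⌊y⌋₊) := rfl
  rw [e]
  exact (measurable_of_countable _).comp Nat.measurable_floor

theorem abs_SS_le (a : ℕ → ℝ) {y b : ℝ} (hy : y ≤ b) : |SS a y| ≤ ∑ n ∈ Finset.Icc 1 ⌊b⌋₊, |a n| := by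
  unfold SS
  refine (Finset.abs_sum_le_sum_abs _ _).trans ?_
  exact Finset.sum_le_sum_of_subset_of_nonneg (Finset.Icc_subset_Icc_right (Nat.floor_mono hy))
    fun _ _ _ => abs_nonneg _

theorem SS_int (a : ℕ → ℝ) (K p q : ℝ) : IntegrableOn (fun y => |SS a y - K|) (Icc p q) := by
  refine Integrable.mono' (g := fun _ => (∑ n ∈ Finset.Icc 1 ⌊q⌋₊, |a n|) + |K|)
    (continuous_const.continuousOn.integrableOn_compact isCompact_Icc) ?_ ?_
  · have := SS_meas a
    exact (by fun_prop : Measurable fun u => |SS a u - K|).aestronglyMeasurable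
  · refine (ae_restrict_iff' measurableSet_Icc).2 (ae_of_all _ fun u hu => ?_)
    rw [Real.norm_eq_abs, abs_abs]
    exact (abs_sub _ _).trans (add_le_add (abs_SS_le a hu.2) le_rfl)

theorem SS_exp_int (a : ℕ → ℝ) (K p q : ℝ) : IntegrableOn (fun u => |SS a (Real.exp u) - K|) (Icc p q) := by
  refine Integrable.mono' (g := fun _ => (∑ n ∈ Finset.Icc 1 ⌊Real.exp q⌋₊, |a n|) + |K|)
    (continuous_const.continuousOn.integrableOn_compact isCompact_Icc) ?_ ?_
  · have := SS_meas a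
    exact (by fun_prop : Measurable fun u => |SS a (Real.exp u) - K|).aestronglyMeasurable
  · refine (ae_restrict_iff' measurableSet_Icc).2 (ae_of_all _ fun u hu => ?_)
    rw [Real.norm_eq_abs, abs_abs]
    exact (abs_sub _ _).trans (add_le_add (abs_SS_le a (Real.exp_le_exp.2 hu.2)) le_rfl)

/-- the integral representation of the smoothed sum -/
theorem SG_reprG (a0 : a 0 = 0) {L : ℝ} {φ : ℝ → ℝ} (hφ : VZ φ) (hφ' : TF L (deriv φ)) (t : ℝ) :
    SG a φ t = ∫ u : ℝ, SS a (Real.exp u) * deriv φ (t - u) := by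
  set N := ⌈Real.exp (t + 1)⌉₊ with hN
  have hz : ∀ n : ℕ, N < n → t ≤ Real.log n := fun n hn => log_ge_of t t (by linarith) n hn
  rw [SGv_eq_sum hφ N t hz]
  have hi : ∀ n : ℕ, Integrable (fun u => a n * (Ici (Real.log n)).indicator (fun u => deriv φ (t - u)) u) := by
    intro n
    refine Integrable.const_mul ?_ _
    refine Integrable.indicator ?_ measurableSet_Ici
    have hi : Integrable (deriv φ) := by
      refine Continuous.integrable_of_hasCompactSupport hφ'.smooth.continuous hφ'.hcs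
    exact hi.comp_sub_left t
  have e1 : ∀ n ∈ Finset.range (N + 1), a n * φ (t - Real.log n) =
      ∫ u : ℝ, a n * (Ici (Real.log n)).indicator (fun u => deriv φ (t - u)) u := by
    intro n _
    rw [integral_const_mul, shift_int hφ hφ']
  rw [Finset.sum_congr rfl e1, ← integral_finsetSum _ fun n _ => hi n]
  refine integral_congr_ae (ae_of_all _ fun u => ?_)
  simp only
  by_cases hu : u ≤ t
  · have e2 : ∀ n ∈ Finset.range (N + 1), a n * (Ici (Real.log n)).indicator (fun u => deriv φ (t - u)) u =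
        if n ∈ Finset.Icc 1 ⌊Real.exp u⌋₊ then a n * deriv φ (t - u) else 0 := by
      intro n _
      by_cases hn0 : n = 0
      · rw [hn0, a0]
        simp
      · have hn1 : 1 ≤ n := Nat.one_le_iff_ne_zero.2 hn0
        have hnp : (0:ℝ) < n := by exact_mod_cast hn1
        by_cases hle : Real.log n ≤ u
        · rw [indicator_of_mem (show u ∈ Ici (Real.log n) from hle), if_pos]
          rw [Finset.mem_Icc]
          refine ⟨hn1, Nat.le_floor ?_⟩
          rwa [← Real.log_le_iff_le_exp hnp]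
        · rw [indicator_of_notMem (show u ∉ Ici (Real.log n) from hle), if_neg, mul_zero]
          rw [Finset.mem_Icc]
          rintro ⟨_, h2⟩
          apply hle
          rw [Real.log_le_iff_le_exp hnp]
          exact (Nat.le_floor_iff (Real.exp_pos u).le).1 h2
    rw [Finset.sum_congr rfl e2, ← Finset.sum_filter]
    have e3 : (Finset.range (N + 1)).filter (fun n => n ∈ Finset.Icc 1 ⌊Real.exp u⌋₊) = Finset.Icc 1 ⌊Real.exp u⌋₊ := by
      ext n
      rw [Finset.mem_filter, Finset.mem_range]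
      refine ⟨fun h => h.2, fun h => ⟨?_, h⟩⟩
      rw [Finset.mem_Icc] at h
      have h6 : ⌊Real.exp u⌋₊ ≤ N := by
        have : Real.exp u ≤ Real.exp (t + 1) := Real.exp_le_exp.2 (by linarith)
        exact (Nat.floor_mono this).trans (Nat.floor_le_ceil _)
      omega
    rw [e3, ← Finset.sum_mul]
    rfl
  · have h0 : deriv φ (t - u) = 0 := hφ'.supp _ fun h => hu (by linarith [h.1])
    rw [h0, mul_zero]
    refine Finset.sum_eq_zero fun n _ => ?_
    by_cases hm : u ∈ Ici (Real.log n)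
    · rw [indicator_of_mem hm, h0, mul_zero]
    · rw [indicator_of_notMem hm, mul_zero]

theorem vz_of_TF {L : ℝ} {φ : ℝ → ℝ} (h : TF L φ) : VZ φ := by
  refine ⟨h.smooth, fun t ht => ?_⟩
  have hc : IsClosed {t : ℝ | φ t = 0} := isClosed_eq h.smooth.continuous continuous_const
  have h0 : Iio (0:ℝ) ⊆ {t : ℝ | φ t = 0} := fun x hx => h.supp x fun hm => absurd hm.1 (not_le.2 hx)
  have : closure (Iio (0:ℝ)) ⊆ {t : ℝ | φ t = 0} := hc.closure_subset_iff.2 h0
  rw [closure_Iio] at this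
  exact this ht

/-- the bound by the local mean deviation from a constant -/
theorem SG_le_localK (a0 : a 0 = 0) {L B : ℝ} {φ : ℝ → ℝ} (hφ : TF L φ) (hB : ∀ t, |deriv φ t| ≤ B)
    (t K : ℝ) : |SG a φ t| ≤ B * ∫ u in Icc (t - L) t, |SS a (Real.exp u) - K| := by
  have hi : Integrable (deriv φ) :=
    Continuous.integrable_of_hasCompactSupport hφ.deriv.smooth.continuous hφ.deriv.hcs
  have hi' : Integrable (fun u => deriv φ (t - u)) := hi.comp_sub_left t
  have h0 : ∫ u : ℝ, deriv φ (t - u) = 0 := by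
    rw [integral_sub_left_eq_self (fun v => deriv φ v) volume t]
    exact integral_eq_zero_of_hasDerivAt_of_integrable
      (fun x => ((contDiff_infty_iff_deriv.1 hφ.smooth).1 x).hasDerivAt) hi
      (Continuous.integrable_of_hasCompactSupport hφ.smooth.continuous hφ.hcs)
  have hMm := SS_meas a
  have hi2 : Integrable (fun u => SS a (Real.exp u) * deriv φ (t - u)) := by
    have h1 : Integrable ((Icc (t - L) t).indicator (fun u => |SS a (Real.exp u) - 0| * B)) := by
      have : IntegrableOn (fun u => |SS a (Real.exp u) - 0| * B) (Icc (t - L) t) := (SS_exp_int a 0 _ _).mul_const B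
      exact this.integrable_indicator measurableSet_Icc
    have hc := hφ.deriv.smooth.continuous
    refine h1.mono' ?_ (ae_of_all _ fun u => ?_)
    · exact (by fun_prop : Measurable fun u => SS a (Real.exp u) * deriv φ (t - u)).aestronglyMeasurable
    · by_cases hu : u ∈ Icc (t - L) t
      · rw [indicator_of_mem hu, norm_mul, Real.norm_eq_abs, Real.norm_eq_abs, sub_zero]
        exact mul_le_mul_of_nonneg_left (hB _) (abs_nonneg _)
      · rw [indicator_of_notMem hu]
        have h0 : deriv φ (t - u) = 0 := hφ.deriv.supp _ fun h => hu ⟨by linarith [h.2], by linarith [h.1]⟩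
        rw [h0, mul_zero, norm_zero]
  have e1 : SG a φ t = ∫ u : ℝ, (SS a (Real.exp u) - K) * deriv φ (t - u) := by
    rw [SG_reprG a0 (vz_of_TF hφ) hφ.deriv]
    have : ∀ u : ℝ, (SS a (Real.exp u) - K) * deriv φ (t - u) =
        SS a (Real.exp u) * deriv φ (t - u) - K * deriv φ (t - u) := fun u => by ring
    simp_rw [this]
    rw [integral_sub hi2 (hi'.const_mul K), integral_const_mul, h0, mul_zero, sub_zero]
  rw [e1, ← integral_const_mul, ← integral_indicator measurableSet_Icc]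
  refine abs_integral_le_integral_abs.trans ?_
  have hB0 : 0 ≤ B := (abs_nonneg _).trans (hB 0)
  refine integral_mono_of_nonneg (ae_of_all _ fun u => abs_nonneg _) ?_ (ae_of_all _ fun u => ?_)
  · have hI : IntegrableOn (fun u => B * |SS a (Real.exp u) - K|) (Icc (t - L) t) :=
      (SS_exp_int a K (t - L) t).const_mul B
    exact hI.integrable_indicator measurableSet_Icc
  · show |(SS a (Real.exp u) - K) * deriv φ (t - u)| ≤ _
    by_cases hu : u ∈ Icc (t - L) t
    · rw [indicator_of_mem hu, abs_mul, mul_comm]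
      exact mul_le_mul_of_nonneg_right (hB _) (abs_nonneg _)
    · rw [indicator_of_notMem hu]
      have h0 : deriv φ (t - u) = 0 := hφ.deriv.supp _ fun h => hu ⟨by linarith [h.2], by linarith [h.1]⟩
      rw [h0, mul_zero, abs_zero]

/-- killing functions may be multiplied by `1 + s` -/
theorem kill_lin {σ : ℝ} {K : ℂ → ℂ} (hK : Kill σ K) : Kill σ (fun s => (1 + s) * K s) := by
  obtain ⟨D, m, hD, hb⟩ := hK.bound
  refine ⟨?_, ⟨D, m + 1, hD, fun s hs => ?_⟩, fun ρ h0 hre => ?_⟩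
  · have := hK.diff
    fun_prop
  · rw [norm_mul]
    have h1 : ‖1 + s‖ ≤ 1 + ‖s‖ := by
      refine (norm_add_le _ _).trans ?_
      rw [norm_one]
    calc ‖1 + s‖ * ‖K s‖ ≤ (1 + ‖s‖) * (D * (1 + ‖s‖) ^ m) :=
          mul_le_mul h1 (hb s hs) (norm_nonneg _) (by positivity)
      _ = D * (1 + ‖s‖) ^ (m + 1) := by ring
  · have h1 : AnalyticAt ℂ (fun s : ℂ => 1 + s) ρ := by fun_prop
    have e : (fun s => (1 + s) * K s) = (fun s : ℂ => 1 + s) * K := rfl
    rw [e, analyticOrderAt_mul h1 (hK.diff.analyticAt ρ)]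
    exact (hK.order ρ h0 hre).trans (le_add_left le_rfl)

/-- core bound for the derivative of the step -/
theorem core_deriv (ha : Nice a) {σ θ ε L : ℝ} (h1 : 1 / 2 < σ) (h2 : σ < θ) (h3 : θ < 1) (hε : 0 < ε)
    {g : ℝ → ℝ} (hg : ST L g) {K : ℂ → ℂ} (hK : Kill σ K)
    (hGK : ∀ s : ℂ, DD (deriv g) s = DD (deriv (Ph ε)) s * K s) :
    ∃ C : ℝ, ∀ t : ℝ, |SG a (deriv g) t| ≤ C * Real.exp (θ * t) := by
  obtain ⟨C1, _, hC1⟩ := ha.core h1 h2 h3 hε hg hK hGK
  have hg2 : ST L (kp (-1) 0 g) := kp_ST hg _ _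
  obtain ⟨C2, _, hC2⟩ := ha.core h1 h2 h3 hε hg2 (kill_lin hK) (fun s => by
    rw [kp_DD hg, hGK s]
    push_cast
    ring)
  refine ⟨C1 + C2, fun t => ?_⟩
  have e := SG_kp (a := a) (vz_of_ST hg) (-1) 0 t
  have e2 : SG a (deriv g) t = SG a (kp (-1) 0 g) t - SG a g t := by
    rw [e]; ring
  rw [e2]
  have := hC1 t
  have := hC2 t
  refine (abs_sub _ _).trans ?_
  linarith

/-- from the derivative back to the step -/
theorem int_bound (a0 : a 0 = 0) {L θ C : ℝ} (hθ : 0 < θ) {g : ℝ → ℝ} (hg : ST L g)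
    (hb : ∀ t, |SG a (deriv g) t| ≤ C * Real.exp (θ * t)) :
    ∀ t, |SG a g t| ≤ C / θ * Real.exp (θ * t) := by
  have hC0 : 0 ≤ C := by
    have := (abs_nonneg _).trans (hb 0)
    simpa using this
  intro t
  rcases le_total t 0 with ht | ht
  · rw [SG_neg hg a0 t ht, abs_zero]
    positivity
  · have hd : ∀ u, HasDerivAt (SG a g) (SG a (deriv g) u) u := fun u => SG_hasDeriv (vz_of_ST hg) u
    have hc : Continuous (SG a (deriv g)) :=
      continuous_iff_continuousAt.2 fun u => (SG_hasDeriv (vz_of_ST hg).deriv u).continuousAt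
    have h1 := intervalIntegral.integral_eq_sub_of_hasDerivAt (a := 0) (b := t) (fun u _ => hd u)
      (hc.intervalIntegrable 0 t)
    rw [SG_neg hg a0 0 le_rfl, sub_zero] at h1
    have hd2 : ∀ u : ℝ, HasDerivAt (fun u : ℝ => C / θ * Real.exp (θ * u)) (C * Real.exp (θ * u)) u := by
      intro u
      have h2 : HasDerivAt (fun u : ℝ => Real.exp (θ * u)) (Real.exp (θ * u) * (θ * 1)) u :=
        ((hasDerivAt_id u).const_mul θ).exp
      refine (h2.const_mul (C / θ)).congr_deriv ?_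
      field_simp
    have hc2 : Continuous (fun u : ℝ => C * Real.exp (θ * u)) := by fun_prop
    have h3 := intervalIntegral.integral_eq_sub_of_hasDerivAt (a := 0) (b := t) (fun u _ => hd2 u)
      (hc2.intervalIntegrable 0 t)
    have h4 : ‖∫ u in (0:ℝ)..t, SG a (deriv g) u‖ ≤ ∫ u in (0:ℝ)..t, C * Real.exp (θ * u) :=
      intervalIntegral.norm_integral_le_of_norm_le ht (ae_of_all _ fun u _ => hb u)
        (hc2.intervalIntegrable 0 t)
    rw [h1, h3, Real.norm_eq_abs] at h4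
    have : 0 ≤ C / θ * Real.exp (θ * 0) := by positivity
    linarith

/-- A zero is visible in every window, modulo constants. -/
theorem not_smallG (ha : Nice a) (ρ : ℂ) (hρ : FF ρ = 0) (hre : 1 / 2 < ρ.re) (him : 0 < ρ.im) (δ : ℝ) (hδ : 0 < δ)
    (hsm : ∀ κ > 0, ∃ᶠ t in atTop, ∃ K : ℝ, ∫ u in Icc (t - δ) t, |SS a (Real.exp u) - K| ≤
      κ * Real.exp (ρ.re * t)) :
    False := by
  classical
  have hβ1 : ρ.re < 1 := ZU.J_g2b.FF_zero_re hρ
  set θ : ℝ := (1 / 2 + ρ.re) / 2 with hθ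
  set σ : ℝ := (1 / 2 + θ) / 2 with hσ
  have h1 : 1 / 2 < σ := by rw [hσ, hθ]; linarith
  have h2 : σ < θ := by rw [hσ, hθ]; linarith
  have h3 : θ < ρ.re := by rw [hθ]; linarith
  have h4 : σ < 1 := by linarith
  have := ZS_countable σ h1 h4
  set L : ℝ := min δ (Real.pi / ρ.im) with hL
  have hL0 : 0 < L := lt_min hδ (div_pos Real.pi_pos him)
  obtain ⟨T0, hT0⟩ := hT_small σ h1 h4 (L / 2) (by linarith)
  set T : ℝ := max T0 ρ.im with hT'
  have hTs : ∑' i, hT σ T i < L / 2 :=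
    lt_of_le_of_lt ((hT_summable σ T h1 h4).tsum_le_tsum (fun i => hT_anti σ T0 T (le_max_left _ _) i)
      (hT_summable σ T0 h1 h4)) hT0
  have hPh := Ph_ST (L / 2) (by linarith)
  set Bs := Av (bx σ) (hT σ T) (Ph (L / 2)) with hBs
  have hB : ST L Bs := (Av_ST _ _ (hT_nonneg _ T) (hT_summable _ T h1 h4) hPh).mono (by linarith)
  have hBm : Monotone Bs := Av_mono _ _ (hT_nonneg _ T) (hT_summable _ T h1 h4) hPh (Ph_mono _ (by linarith))
  have hBne : DD (deriv Bs) ρ ≠ 0 := by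
    intro hz
    have h5 := mono_long hL0 hB hBm ρ hz
    rw [abs_of_pos him] at h5
    have h6 : L ≤ Real.pi / ρ.im := min_le_right _ _
    rw [le_div_iff₀ him] at h6
    linarith
  obtain ⟨g0, hg0, hg0s⟩ := PF_step ((LZ σ T).erase ρ) hB
  set c : ℝ := 2 * ρ.re / ‖ρ‖ ^ 2 with hc
  set d : ℝ := 1 / ‖ρ‖ ^ 2 with hd
  set gs : ℕ → ℝ → ℝ := fun j => (kp c d)^[j] g0 with hgs
  have hgs1 : ∀ j, gs (j + 1) = kp c d (gs j) := by
    intro j
    rw [hgs]
    simp only
    rw [Function.iterate_succ_apply']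
  have hST : ∀ j, ST L (gs j) := by
    intro j
    induction j with
    | zero => exact hg0
    | succ j ih => rw [hgs1]; exact kp_ST ih _ _
  have hDD : ∀ j s, DD (deriv (gs j)) s = qf ρ s ^ j * DD (deriv g0) s := by
    intro j s
    induction j with
    | zero => simp [hgs]
    | succ j ih =>
      rw [hgs1, kp_DD (hST j), ih, pow_succ]
      unfold qf
      rw [hc, hd]
      ring
  have hmem : ρ ∈ LZ σ T := by
    rw [mem_LZ]
    exact ⟨hρ, ⟨by linarith, hβ1.le⟩, him.le, le_max_right _ _⟩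
  have hKm : ∀ s, DD (deriv (gs (mu ρ))) s = DD (deriv (Ph (L / 2))) s * KL σ T s := by
    intro s
    rw [hDD, hg0s, hBs, DD_Av _ _ (hT_nonneg _ T) (hT_summable _ T h1 h4) hPh]
    unfold KL PF
    rw [← Finset.mul_prod_erase (LZ σ T) _ hmem]
    ring
  have hPm : ∃ C : ℝ, ∀ t : ℝ, |SG a (deriv (gs (mu ρ))) t| ≤ C * Real.exp (θ * t) :=
    core_deriv ha h1 h2 (by linarith) (by linarith : 0 < L / 2) (hST (mu ρ)) (KL_kill σ T h1 h4) hKm
  -- the derivative commutes with the operator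
  have hcomm : ∀ j t, SG a (deriv (gs (j + 1))) t = SG a (deriv (gs j)) t - c * SG a (deriv (deriv (gs j))) t +
      d * SG a (deriv (deriv (deriv (gs j)))) t := by
    intro j t
    have e : deriv (kp c d (gs j)) = kp c d (deriv (gs j)) := by
      funext t
      have hh := (hST j).smooth
      have k1 : ContDiff ℝ ∞ (deriv (gs j)) := (contDiff_infty_iff_deriv.1 hh).2
      have k2 : ContDiff ℝ ∞ (deriv (deriv (gs j))) := (contDiff_infty_iff_deriv.1 k1).2
      have a1 := ((contDiff_infty_iff_deriv.1 hh).1 t).hasDerivAt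
      have a2 := ((contDiff_infty_iff_deriv.1 k1).1 t).hasDerivAt
      have a3 := ((contDiff_infty_iff_deriv.1 k2).1 t).hasDerivAt
      exact ((a1.sub (a2.const_mul c)).add (a3.const_mul d)).deriv
    rw [hgs1, e, SG_kp (vz_of_ST (hST j)).deriv]
  have hstep : ∀ j, (∃ C : ℝ, ∀ t : ℝ, |SG a (deriv (gs (j + 1))) t| ≤ C * Real.exp (θ * t)) →
      ∃ C : ℝ, ∀ t : ℝ, |SG a (deriv (gs j)) t| ≤ C * Real.exp (θ * t) := by
    intro j hj
    obtain ⟨C, hC⟩ := hj
    have hv := (vz_of_ST (hST j)).deriv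
    obtain ⟨B1, hB1⟩ := TF_bdd (hST j).tf.deriv
    obtain ⟨B2, hB2⟩ := TF_bdd (hST j).tf.deriv.deriv
    have hB10 : 0 ≤ B1 := (abs_nonneg _).trans (hB1 0)
    have hB20 : 0 ≤ B2 := (abs_nonneg _).trans (hB2 0)
    refine descent ρ θ C (SG a (deriv (gs j))) (SG a (deriv (deriv (gs j)))) (SG a (deriv (deriv (deriv (gs j)))))
      (SG a (deriv (gs (j + 1)))) him.ne' h3 (fun t => SG_hasDeriv hv t) (fun t => SG_hasDeriv hv.deriv t)
      (continuous_iff_continuousAt.2 fun t => (SG_hasDeriv hv.deriv.deriv t).continuousAt)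
      (fun t => hcomm j t) hC ?_
    intro κ hκ
    refine (hsm (κ / (B1 + B2 + 1)) (by positivity)).mono fun t ht => ?_
    obtain ⟨K, ht⟩ := ht
    have i1 := SG_le_localK ha.zero (hST j).tf hB1 t K
    have i2 := SG_le_localK ha.zero (hST j).tf.deriv hB2 t K
    have i3 : ∫ u in Icc (t - L) t, |SS a (Real.exp u) - K| ≤ ∫ u in Icc (t - δ) t, |SS a (Real.exp u) - K| := by
      refine setIntegral_mono_set (SS_exp_int a K _ _) (ae_of_all _ fun u => abs_nonneg _) ?_
      refine (Icc_subset_Icc_left ?_).eventuallyLE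
      have : L ≤ δ := min_le_left _ _
      linarith
    have i4 : 0 ≤ ∫ u in Icc (t - L) t, |SS a (Real.exp u) - K| := integral_nonneg fun _ => abs_nonneg _
    calc |SG a (deriv (gs j)) t| + |SG a (deriv (deriv (gs j))) t|
        ≤ (B1 + B2) * ∫ u in Icc (t - L) t, |SS a (Real.exp u) - K| := by linarith
      _ ≤ (B1 + B2 + 1) * ∫ u in Icc (t - L) t, |SS a (Real.exp u) - K| := by nlinarith
      _ ≤ (B1 + B2 + 1) * (κ / (B1 + B2 + 1) * Real.exp (ρ.re * t)) := by
          refine mul_le_mul_of_nonneg_left (i3.trans ht) (by positivity)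
      _ = κ * Real.exp (ρ.re * t) := by field_simp
  have hall : ∀ m, (∃ C : ℝ, ∀ t : ℝ, |SG a (deriv (gs m)) t| ≤ C * Real.exp (θ * t)) →
      ∃ C : ℝ, ∀ t : ℝ, |SG a (deriv (gs 0)) t| ≤ C * Real.exp (θ * t) := by
    intro m
    induction m with
    | zero => exact id
    | succ m ih => exact fun h => ih (hstep m h)
  obtain ⟨C, hC⟩ := hall _ hPm
  have hC' := int_bound ha.zero (by linarith : 0 < θ) (hST 0) hC
  have hz := ha.dd (hST 0) θ (C / θ) (by linarith) (by linarith) hC' ρ hρ h3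
  have hz' : DD (deriv g0) ρ = 0 := hz
  rw [hg0s] at hz'
  rcases mul_eq_zero.1 hz' with h | h
  · unfold PF at h
    rw [Finset.prod_eq_zero_iff] at h
    obtain ⟨z, hz1, hz2⟩ := h
    rw [Finset.mem_erase, mem_LZ] at hz1
    have hz3 := (pow_eq_zero_iff (Nat.one_le_iff_ne_zero.1 (mu_pos z hz1.2.1))).1 hz2
    refine qf_ne z ρ ?_ hz1.1.symm ?_ hz3
    · rintro rfl
      have := hz1.2.2.1.1
      simp at this
      linarith
    · intro h
      have h5 := congrArg Complex.im h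
      simp only [Complex.conj_im] at h5
      have := hz1.2.2.2.1
      linarith
  · exact hBne h

theorem not_smallG' (ha : Nice a) (ρ : ℂ) (hρ : riemannZeta ρ = 0) (hre : 1 / 2 < ρ.re) (δ : ℝ) (hδ : 0 < δ)
    (hsm : ∀ κ > 0, ∃ᶠ t in atTop, ∃ K : ℝ, ∫ u in Icc (t - δ) t, |SS a (Real.exp u) - K| ≤
      κ * Real.exp (ρ.re * t)) :
    False := by
  rcases lt_or_gt_of_ne (FF_im_ne ρ (FF_of_zeta ρ hρ) (by linarith)) with h | h
  · refine not_smallG ha (starRingEnd ℂ ρ) ?_ (by simpa using hre) (by simpa using h) δ hδ (by simpa using hsm)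
    rw [FF_conj, FF_of_zeta ρ hρ]
    simp
  · exact not_smallG ha ρ (FF_of_zeta ρ hρ) hre h δ hδ hsm

/-- change of variables -/
theorem exp_windowG (a : ℕ → ℝ) (K p q : ℝ) :
    ∫ u in Icc p q, |SS a (Real.exp u) - K| ≤
      Real.exp (-p) * ∫ y in Icc (Real.exp p) (Real.exp q), |SS a y - K| := by
  have himg : Real.exp '' Icc p q = Icc (Real.exp p) (Real.exp q) := by
    ext y
    constructor
    · rintro ⟨u, hu, rfl⟩
      exact ⟨Real.exp_le_exp.2 hu.1, Real.exp_le_exp.2 hu.2⟩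
    · intro hy
      have hy0 : 0 < y := (Real.exp_pos p).trans_le hy.1
      refine ⟨Real.log y, ⟨?_, ?_⟩, Real.exp_log hy0⟩
      · rw [Real.le_log_iff_exp_le hy0]; exact hy.1
      · rw [Real.log_le_iff_le_exp hy0]; exact hy.2
  have key := integral_image_eq_integral_abs_deriv_smul (s := Icc p q) measurableSet_Icc
    (f := Real.exp) (f' := Real.exp) (fun x _ => (Real.hasDerivAt_exp x).hasDerivWithinAt)
    Real.exp_injective.injOn (fun y => |SS a y - K|)
  have keyi := (integrableOn_image_iff_integrableOn_abs_deriv_smul (s := Icc p q) measurableSet_Icc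
    (f := Real.exp) (f' := Real.exp) (fun x _ => (Real.hasDerivAt_exp x).hasDerivWithinAt)
    Real.exp_injective.injOn (fun y => |SS a y - K|)).1 (by rw [himg]; exact SS_int a K _ _)
  rw [himg] at key
  rw [key, ← integral_const_mul]
  refine setIntegral_mono_on (SS_exp_int a K p q) (keyi.const_mul _) measurableSet_Icc fun u hu => ?_
  rw [smul_eq_mul, abs_of_pos (Real.exp_pos u), ← mul_assoc, ← Real.exp_add]
  have : 1 ≤ Real.exp (-p + u) := Real.one_le_exp (by linarith [hu.1])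
  nlinarith [abs_nonneg (SS a (Real.exp u) - K)]

/-- **Lower bound modulo constants.** -/
theorem window_lowerG (ha : Nice a) (ρ : ℂ) (hρ : riemannZeta ρ = 0) (hre : 1 / 2 < ρ.re) (η : ℝ) (hη : 0 < η) :
    ∃ c : ℝ, 0 < c ∧ ∀ᶠ x : ℝ in atTop, ∀ K : ℝ, c * x ^ (1 + ρ.re) ≤ ∫ y in x..(1 + η) * x, |SS a y - K| := by
  by_contra hcon
  push Not at hcon
  have hlog : 0 < Real.log (1 + η) := Real.log_pos (by linarith)
  refine not_smallG' ha ρ hρ hre (Real.log (1 + η)) hlog fun κ hκ => ?_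
  have h1 := hcon κ hκ
  have ht : Tendsto (fun x : ℝ => Real.log x + Real.log (1 + η)) atTop atTop :=
    tendsto_atTop_add_const_right _ _ Real.tendsto_log_atTop
  refine ht.frequently ?_
  refine (h1.and_eventually (eventually_ge_atTop (1:ℝ))).mono fun x hx => ?_
  obtain ⟨⟨K, hx1⟩, hx2⟩ := hx
  refine ⟨K, ?_⟩
  have hx0 : 0 < x := by linarith
  have e1 : Real.log x + Real.log (1 + η) - Real.log (1 + η) = Real.log x := by ring
  rw [e1]
  refine (exp_windowG a K _ _).trans ?_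
  have e2 : Real.exp (Real.log x + Real.log (1 + η)) = (1 + η) * x := by
    rw [Real.exp_add, Real.exp_log hx0, Real.exp_log (by linarith)]
    ring
  rw [e2, Real.exp_neg, Real.exp_log hx0, integral_Icc_eq_integral_Ioc,
    ← intervalIntegral.integral_of_le (by nlinarith)]
  have h5 : x⁻¹ * ∫ y in x..(1 + η) * x, |SS a y - K| ≤ x⁻¹ * (κ * x ^ (1 + ρ.re)) :=
    mul_le_mul_of_nonneg_left hx1.le (by positivity)
  refine h5.trans ?_
  rw [Real.rpow_add hx0, Real.rpow_one]
  have e3 : x⁻¹ * (κ * (x * x ^ ρ.re)) = κ * x ^ ρ.re := by field_simp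
  rw [e3]
  refine mul_le_mul_of_nonneg_left ?_ hκ.le
  rw [Real.rpow_def_of_pos hx0]
  refine Real.exp_le_exp.2 ?_
  nlinarith

end

end H313.LW
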