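import Pool.Agent.H313R3.LW.F

/-!
# Local to global principle for the Mertens function, modulo constants
-/

open Complex MeasureTheory ProbabilityTheory Filter Topology Set Metric
open scoped ContDiff

set_option linter.unusedSectionVars false
set_option autoImplicit false

namespace H313.LW

open H353
open H353.FB (Mx)

noncomputable section

theorem window_lowerK (ρ : ℂ) (hρ : riemannZeta ρ = 0) (hre : 1 / 2 < ρ.re) (η : ℝ) (hη : 0 < η) :
    ∃ c : ℝ, 0 < c ∧ ∀ᶠ x : ℝ in atTop, ∀ K : ℝ, c * x ^ (1 + ρ.re) ≤ ∫ y in x..(1 + η) * x, |Mx y - K| :=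
  window_lowerG nice_mu ρ hρ hre η hη

/-- **Two-sided local to global principle.** -/
theorem local_globalK (θ : ℝ) (h0 : 1 / 2 ≤ θ) (h1 : θ < 1) :
    (∀ ε : ℝ, 0 < ε → ∃ C : ℝ, ∀ x : ℝ, 1 ≤ x → |Mx x| ≤ C * x ^ (θ + ε)) ↔
    (∀ ε : ℝ, 0 < ε → ∃ η : ℝ, 0 < η ∧ ∃ᶠ x : ℝ in atTop, ∃ K : ℝ,
      ∫ y in x..(1 + η) * x, |Mx y - K| ≤ x ^ (1 + θ + ε)) := by
  constructor
  · intro h ε hε
    obtain ⟨η, hη, hf⟩ := (local_global θ h0 h1).1 h ε hε
    exact ⟨η, hη, hf.mono fun x hx => ⟨0, by simpa using hx⟩⟩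
  · intro h ε hε
    refine mertens_of_free θ h0 ?_ (θ + ε) (by linarith)
    intro s hs hz
    obtain ⟨η, hη, hf⟩ := h ((s.re - θ) / 2) (by linarith)
    obtain ⟨c, hc, hlow⟩ := window_lowerK s hz (by linarith) η hη
    have h3 := (hf.and_eventually (hlow.and (rpow_ev c (1 + θ + (s.re - θ) / 2) (1 + s.re) 1 hc (by linarith)))).exists
    obtain ⟨x, ⟨K, hx1⟩, hx2, hx3⟩ := h3
    rw [one_mul] at hx3
    linarith [hx2 K]

/-- Q1 and sums over subintervals of sparse windows -/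
theorem q1_iff_windowK :
    (∃ ε C : ℝ, ε < 1 / 2 ∧ ∀ x : ℝ, 1 ≤ x → |Mx x| ≤ C * x ^ (1 / 2 + ε)) ↔
    ∃ η θ : ℝ, 0 < η ∧ θ < 1 ∧ ∃ᶠ x : ℝ in atTop, ∀ y ∈ Icc x ((1 + η) * x), |Mx y - Mx x| ≤ x ^ θ := by
  constructor
  · rintro ⟨ε, C, hε, hC⟩
    have hC0 : 0 ≤ C := by
      have := (abs_nonneg _).trans (hC 1 le_rfl)
      simpa using this
    set θ : ℝ := max (1 / 2 + ε) (1 / 2) with hθ
    have hθ1 : θ < 1 := max_lt (by linarith) (by norm_num)
    have hθ0 : 1 / 2 ≤ θ := le_max_right _ _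
    refine ⟨1, (1 + θ) / 2, one_pos, by linarith, Eventually.frequently ?_⟩
    filter_upwards [rpow_ev 1 θ ((1 + θ) / 2) (2 * C * 2 ^ θ) one_pos (by linarith),
      eventually_ge_atTop (1:ℝ)] with x hx hx1 y hy
    have hx0 : 0 < x := by linarith
    have hb : ∀ z ∈ Icc x ((1 + 1) * x), |Mx z| ≤ C * 2 ^ θ * x ^ θ := by
      intro z hz
      have hz1 : 1 ≤ z := by linarith [hz.1]
      have e2 : |Mx z| ≤ C * z ^ θ := by
        refine (hC z hz1).trans (mul_le_mul_of_nonneg_left ?_ hC0)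
        exact Real.rpow_le_rpow_of_exponent_le hz1 (le_max_left _ _)
      have e3 : z ^ θ ≤ (2 * x) ^ θ := Real.rpow_le_rpow (by linarith) (by linarith [hz.2]) (by linarith)
      rw [Real.mul_rpow (by norm_num) hx0.le] at e3
      calc |Mx z| ≤ C * z ^ θ := e2
        _ ≤ C * (2 ^ θ * x ^ θ) := mul_le_mul_of_nonneg_left e3 hC0
        _ = _ := by ring
    have b1 := hb y hy
    have b2 := hb x ⟨le_rfl, by linarith⟩
    rw [one_mul] at hx
    have := abs_sub (Mx y) (Mx x)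
    nlinarith
  · rintro ⟨η, θ, hη, hθ, hf⟩
    set θ' : ℝ := max θ (1 / 2) with hθ'
    have hθ1 : θ' < 1 := max_lt hθ (by norm_num)
    have hθ0 : θ ≤ θ' := le_max_left _ _
    have key := (local_globalK θ' (le_max_right _ _) hθ1).2 (fun ε hε => ⟨η, hη, by
      have hev := rpow_ev 1 (1 + θ) (1 + θ' + ε) η one_pos (by linarith)
      refine (hf.and_eventually ((eventually_ge_atTop (1:ℝ)).and hev)).mono fun x hx => ⟨Mx x, ?_⟩
      obtain ⟨hx1, hx2, hx3⟩ := hx
      have hx0 : 0 < x := by linarith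
      have hb : ∀ y ∈ Set.uIoc x ((1 + η) * x), ‖|Mx y - Mx x|‖ ≤ x ^ θ := by
        intro y hy
        rw [uIoc_of_le (by nlinarith)] at hy
        rw [Real.norm_eq_abs, abs_abs]
        exact hx1 y ⟨hy.1.le, hy.2⟩
      have h2 := intervalIntegral.norm_integral_le_of_norm_le_const hb
      have h3 : |(1 + η) * x - x| = η * x := by
        rw [show (1 + η) * x - x = η * x by ring, abs_of_pos (by positivity)]
      rw [h3] at h2
      refine (le_abs_self _).trans (h2.trans ?_)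
      rw [one_mul] at hx3
      refine le_trans (le_of_eq ?_) hx3.le
      rw [Real.rpow_add hx0 1, Real.rpow_one]
      ring⟩)
    obtain ⟨C, hC⟩ := key ((1 - θ') / 2) (by linarith)
    refine ⟨θ' + (1 - θ') / 2 - 1 / 2, C, by linarith, fun x hx => ?_⟩
    have := hC x hx
    rwa [show 1 / 2 + (θ' + (1 - θ') / 2 - 1 / 2) = θ' + (1 - θ') / 2 by ring]

end

end H313.LW
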